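import Mathlib

/-!
Lemma L2 of the project DT of helper436 (MP_e120ef_ag): the Taylor homomorphism.
-/

set_option autoImplicit false

namespace Pool.Agent.H436.DT

namespace L2

/-- the Taylor series -/
noncomputable def tay {F : Type} [Field F] (d : F → F) (φ : F →+* ℂ) (x : F) : PowerSeries ℂ :=
  PowerSeries.mk fun n => φ (d^[n] x) / (n.factorial : ℂ)

variable {F : Type} [Field F] (d : F → F)

lemma iter_add (hadd : ∀ x y, d (x + y) = d x + d y) (n : ℕ) (x y : F) :
    d^[n] (x + y) = d^[n] x + d^[n] y := by
  induction n with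
  | zero => rfl
  | succ n ih => rw [Function.iterate_succ_apply', Function.iterate_succ_apply',
      Function.iterate_succ_apply', ih, hadd]

lemma tay_add (hadd : ∀ x y, d (x + y) = d x + d y) (φ : F →+* ℂ) (x y : F) :
    tay d φ (x + y) = tay d φ x + tay d φ y := by
  ext n
  rw [map_add]
  simp only [tay, PowerSeries.coeff_mk]
  rw [iter_add d hadd, map_add, add_div]

lemma tay_deriv (φ : F →+* ℂ) (x : F) :
    tay d φ (d x) = PowerSeries.derivative ℂ (tay d φ x) := by
  ext n
  rw [PowerSeries.coeff_derivative]
  simp only [tay, PowerSeries.coeff_mk]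
  rw [Function.iterate_succ_apply, Nat.factorial_succ]
  have h1 : ((n : ℂ) + 1) ≠ 0 := by exact_mod_cast Nat.succ_ne_zero n
  have h2 : ((n.factorial : ℕ) : ℂ) ≠ 0 := by exact_mod_cast Nat.factorial_ne_zero n
  push_cast
  field_simp

lemma tay_mul_coeff (hadd : ∀ x y, d (x + y) = d x + d y)
    (hmul : ∀ x y, d (x * y) = x * d y + y * d x) (φ : F →+* ℂ) (n : ℕ) :
    ∀ x y : F, PowerSeries.coeff n (tay d φ (x * y)) =
      PowerSeries.coeff n (tay d φ x * tay d φ y) := by
  induction n with
  | zero =>
    intro x y
    rw [PowerSeries.coeff_zero_eq_constantCoeff_apply,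
      PowerSeries.coeff_zero_eq_constantCoeff_apply, map_mul,
      ← PowerSeries.coeff_zero_eq_constantCoeff_apply,
      ← PowerSeries.coeff_zero_eq_constantCoeff_apply,
      ← PowerSeries.coeff_zero_eq_constantCoeff_apply]
    simp [tay]
  | succ n ih =>
    intro x y
    have h1 : ((n : ℂ) + 1) ≠ 0 := by exact_mod_cast Nat.succ_ne_zero n
    have e1 : PowerSeries.coeff n (PowerSeries.derivative ℂ (tay d φ (x * y))) =
        PowerSeries.coeff n (PowerSeries.derivative ℂ (tay d φ x * tay d φ y)) := by
      rw [← tay_deriv, hmul, tay_add d hadd, map_add, ih, ih, tay_deriv, tay_deriv,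
        Derivation.leibniz, map_add, smul_eq_mul, smul_eq_mul]
    rw [PowerSeries.coeff_derivative, PowerSeries.coeff_derivative] at e1
    exact mul_right_cancel₀ h1 e1

lemma tay_one (hadd : ∀ x y, d (x + y) = d x + d y)
    (hmul : ∀ x y, d (x * y) = x * d y + y * d x) (φ : F →+* ℂ) : tay d φ 1 = 1 := by
  have h1 : d 1 = 0 := by
    have := hmul 1 1
    simpa using this
  have h0 : d 0 = 0 := by
    have := hadd 0 0
    simpa using this
  have h2 : ∀ n : ℕ, d^[n + 1] (1 : F) = 0 := by
    intro n
    induction n with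
    | zero => simpa using h1
    | succ n ih => rw [Function.iterate_succ_apply', ih, h0]
  ext n
  rw [PowerSeries.coeff_one]
  cases n with
  | zero => simp [tay]
  | succ n =>
    simp only [tay, PowerSeries.coeff_mk]
    rw [h2 n]
    simp

end L2

open L2 in
/-- L2. The Taylor homomorphism. -/
theorem exists_taylor {F : Type} [Field F] (d : F → F)
    (hadd : ∀ x y, d (x + y) = d x + d y) (hmul : ∀ x y, d (x * y) = x * d y + y * d x)
    (φ : F →+* ℂ) : ∃ T : F →+* PowerSeries ℂ,
      (∀ x, PowerSeries.constantCoeff (T x) = φ x) ∧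
        ∀ x, T (d x) = PowerSeries.derivative ℂ (T x) := by
  refine ⟨{ toFun := tay d φ
            map_one' := tay_one d hadd hmul φ
            map_mul' := fun x y => PowerSeries.ext fun n => tay_mul_coeff d hadd hmul φ n x y
            map_zero' := ?_
            map_add' := tay_add d hadd φ }, ?_, ?_⟩
  · have := tay_add d hadd φ 0 0
    simpa using this
  · intro x
    change PowerSeries.constantCoeff (tay d φ x) = φ x
    rw [← PowerSeries.coeff_zero_eq_constantCoeff_apply]
    simp [tay]
  · intro x
    exact tay_deriv d φ x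

end Pool.Agent.H436.DT
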