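import Mathlib

/-!
L3 of Project DT (helper436; MP_e120ef_ag): countable subfields stable under a derivation
(by helper806).
-/

set_option autoImplicit false

namespace Pool.Agent.H436.DT

/-- L3. Countable subfields which are stable under a derivation. -/
theorem exists_stable {E : Type} [Field E] (d : E → E)
    (hadd : ∀ x y, d (x + y) = d x + d y) (hmul : ∀ x y, d (x * y) = x * d y + y * d x)
    (S : Set E) (hS : S.Countable) : ∃ E0 : Subfield E, Countable E0 ∧ S ⊆ E0 ∧
      ∀ x ∈ E0, d x ∈ E0 := by
  obtain ⟨S', hS'⟩ : ∃ S' : Set E, S' = ⋃ n : ℕ, (d^[n]) '' S := ⟨_, rfl⟩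
  have hc : S'.Countable := by
    rw [hS']
    exact Set.countable_iUnion fun n => hS.image _
  have hsub : S ⊆ S' := by
    intro x hx
    rw [hS']
    exact Set.mem_iUnion.2 ⟨0, x, hx, rfl⟩
  have hst : ∀ x ∈ S', d x ∈ S' := by
    intro x hx
    rw [hS'] at hx ⊢
    obtain ⟨n, y, hy, rfl⟩ := Set.mem_iUnion.1 hx
    exact Set.mem_iUnion.2 ⟨n + 1, y, hy, Function.iterate_succ_apply' d n y⟩
  have h1 : d 1 = 0 := by
    have h := hmul 1 1
    rw [mul_one, one_mul] at h
    exact left_eq_add.1 h
  have h0 : d 0 = 0 := by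
    have h := hadd 0 0
    rw [add_zero] at h
    exact left_eq_add.1 h
  refine ⟨Subfield.closure S', ?_, hsub.trans Subfield.subset_closure, ?_⟩
  · rw [← Cardinal.mk_le_aleph0_iff]
    refine (Subfield.cardinalMk_closure_le_max S').trans (max_le ?_ le_rfl)
    rw [Cardinal.mk_le_aleph0_iff]
    exact hc.to_subtype
  · intro x hx
    induction hx using Subfield.closure_induction with
    | mem x hx => exact Subfield.subset_closure (hst x hx)
    | one =>
      rw [h1]
      exact zero_mem _
    | add x y _ _ hx hy =>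
      rw [hadd]
      exact add_mem hx hy
    | neg x _ hx =>
      have h : d (-x) = - d x := by
        have h2 := hadd x (-x)
        rw [add_neg_cancel, h0] at h2
        exact (neg_eq_of_add_eq_zero_right h2.symm).symm
      rw [h]
      exact neg_mem hx
    | inv x hx' hx =>
      by_cases hx0 : x = 0
      · rw [hx0, inv_zero, h0]
        exact zero_mem _
      · have h : d x⁻¹ = - (x⁻¹ * x⁻¹ * d x) := by
          have h2 := hmul x x⁻¹
          rw [mul_inv_cancel₀ hx0, h1] at h2
          have h3 : x * d x⁻¹ = - (x⁻¹ * d x) := by linear_combination - h2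
          calc d x⁻¹ = x⁻¹ * (x * d x⁻¹) := by rw [← mul_assoc, inv_mul_cancel₀ hx0, one_mul]
            _ = - (x⁻¹ * x⁻¹ * d x) := by rw [h3]; ring
        rw [h]
        exact neg_mem (mul_mem (mul_mem (inv_mem hx') (inv_mem hx')) hx)
    | mul x y hx' hy' hx hy =>
      rw [hmul]
      exact add_mem (mul_mem hx' hy) (mul_mem hy' hx)

end Pool.Agent.H436.DT
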