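import Mathlib

/-!
Elements of differential fields given by iterated linear differential equations.
-/

set_option autoImplicit false

namespace Pool.Agent.H436.DT

variable {K E : Type} [Field K] [Field E] [Algebra K E]

/-- The elements of `E` given by iterated linear differential equations over `B`: the smallest subset
of `E` which contains `B` and is closed under sums, products and solutions `y` in `E` of linear
systems `D y = A y` with coefficients `A` in the set. -/
inductive Iter (D : Derivation K E E) (B : IntermediateField K E) : E → Prop
  | base {b : E} : b ∈ B → Iter D B b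
  | add {f g : E} : Iter D B f → Iter D B g → Iter D B (f + g)
  | mul {f g : E} : Iter D B f → Iter D B g → Iter D B (f * g)
  | ode {m : ℕ} (A : Fin m → Fin m → E) (y : Fin m → E) : (∀ i j, Iter D B (A i j)) →
      (∀ i, D (y i) = ∑ j, A i j * y j) → ∀ i, Iter D B (y i)

/-- `B` is a differential subfield of `(E, D)` which contains the constants of `D`. -/
structure DBase (D : Derivation K E E) (B : IntermediateField K E) : Prop where
  der : ∀ x ∈ B, D x ∈ B
  const : ∀ x, D x = 0 → x ∈ B

theorem Iter.sum {D : Derivation K E E} {B : IntermediateField K E} {ι : Type} (s : Finset ι)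
    {f : ι → E} (h : ∀ i ∈ s, Iter D B (f i)) : Iter D B (∑ i ∈ s, f i) := by
  classical
  induction s using Finset.induction_on with
  | empty =>
    rw [Finset.sum_empty]
    exact Iter.base B.zero_mem
  | insert a s ha ih =>
    rw [Finset.sum_insert ha]
    exact (h a (Finset.mem_insert_self _ _)).add (ih fun i hi => h i (Finset.mem_insert_of_mem hi))

theorem Iter.prod {D : Derivation K E E} {B : IntermediateField K E} {ι : Type} (s : Finset ι)
    {f : ι → E} (h : ∀ i ∈ s, Iter D B (f i)) : Iter D B (∏ i ∈ s, f i) := by
  classical
  induction s using Finset.induction_on with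
  | empty =>
    rw [Finset.prod_empty]
    exact Iter.base B.one_mem
  | insert a s ha ih =>
    rw [Finset.prod_insert ha]
    exact (h a (Finset.mem_insert_self _ _)).mul (ih fun i hi => h i (Finset.mem_insert_of_mem hi))

theorem Iter.pow {D : Derivation K E E} {B : IntermediateField K E} {f : E} (h : Iter D B f)
    (n : ℕ) : Iter D B (f ^ n) := by
  induction n with
  | zero =>
    rw [pow_zero]
    exact Iter.base B.one_mem
  | succ n ih =>
    rw [pow_succ]
    exact ih.mul h

/-- values of polynomials -/
theorem Iter.aeval {D : Derivation K E E} {B : IntermediateField K E} {σ : Type} {h : σ → E}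
    (hh : ∀ j, Iter D B (h j)) (P : MvPolynomial σ K) : Iter D B (MvPolynomial.aeval h P) := by
  rw [MvPolynomial.aeval_def, MvPolynomial.eval₂_eq]
  refine Iter.sum _ fun α _ => (Iter.base (B.algebraMap_mem _)).mul (Iter.prod _ fun i _ =>
    (hh i).pow _)

end Pool.Agent.H436.DT
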