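import Pool.Graph.R_seed8.Y377.IL.MerA
import Pool.Graph.R_seed8.Y954.IL.Fml
import Pool.Agent.H436.DT.Defs

/-!
The Taylor series of the elements given by iterated linear differential equations lie in towers of
formal fundamental matrices.
-/

set_option autoImplicit false

namespace Pool.Agent.H436.DT

open Pool.Agent.Y377.IL

variable {K E : Type} [Field K] [Field E] [Algebra K E]

/-- the subfield of the elements of `E0` in `B` -/
def subB (B : IntermediateField K E) (E0 : Subfield E) : Subfield E0 :=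
  B.toSubfield.comap E0.subtype

theorem mem_subB {B : IntermediateField K E} {E0 : Subfield E} {x : E0} :
    x ∈ subB B E0 ↔ (x : E) ∈ B := Iff.rfl

/-- the homomorphism to the field of Laurent series -/
noncomputable def toLK {E0 : Subfield E} (T : E0 →+* PowerSeries ℂ) : E0 →+* LK :=
  (algebraMap (PowerSeries ℂ) LK).comp T

/-- the base of the towers -/
noncomputable def bs (B : IntermediateField K E) {E0 : Subfield E} (T : E0 →+* PowerSeries ℂ) :
    Subalgebra ℂ LK :=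
  (frac (Algebra.adjoin ℂ (toLK T '' (subB B E0 : Set E0)))).toSubalgebra

theorem mem_bs {B : IntermediateField K E} {E0 : Subfield E} (T : E0 →+* PowerSeries ℂ) {x : E0}
    (hx : (x : E) ∈ B) : toLK T x ∈ bs B T :=
  le_frac _ (Algebra.subset_adjoin ⟨x, hx, rfl⟩)

theorem le_tow {D : Derivation ℂ LK LK} {R0 R : Subalgebra ℂ LK} (hR : LTow D R0 R) : R0 ≤ R := by
  induction hR with
  | base => exact le_rfl
  | step _ _ ih => exact ih.trans (le_mat _ _ _)

theorem bs_good {D : Derivation K E E} {B : IntermediateField K E} (hB : ∀ x ∈ B, D x ∈ B)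
    {E0 : Subfield E} (hE : ∀ x ∈ E0, D x ∈ E0) (T : E0 →+* PowerSeries ℂ)
    (hT : ∀ x : E0, T ⟨D x, hE x x.2⟩ = PowerSeries.derivative ℂ (T x))
    {D' : Derivation ℂ LK LK} (hD' : ∀ f : PowerSeries ℂ,
      D' (algebraMap _ _ f) = algebraMap _ _ (PowerSeries.derivative ℂ f)) :
    GoodB D' (bs B T) := by
  refine goodB_field _ fun _ hx => stab_frac ?_ hx
  intro x hx
  induction hx using Algebra.adjoin_induction with
  | mem x hx =>
    obtain ⟨b, hb, rfl⟩ := hx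
    refine Algebra.subset_adjoin ⟨⟨D b, hE b b.2⟩, hB _ hb, ?_⟩
    change algebraMap _ _ (T ⟨D b, hE b b.2⟩) = D' (algebraMap _ _ (T b))
    rw [hT, hD']
  | algebraMap c =>
    rw [D'.map_algebraMap]
    exact Subalgebra.zero_mem _
  | add x y hx hy h1 h2 =>
    rw [map_add]
    exact Subalgebra.add_mem _ h1 h2
  | mul x y hx hy h1 h2 =>
    rw [D'.leibniz, smul_eq_mul, smul_eq_mul]
    exact Subalgebra.add_mem _ (Subalgebra.mul_mem _ hx h2) (Subalgebra.mul_mem _ hy h1)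

/-- **Towers.** -/
theorem Iter.tow {D : Derivation K E E} {B : IntermediateField K E} {D' : Derivation ℂ LK LK}
    (hD' : ∀ f : PowerSeries ℂ,
      D' (algebraMap _ _ f) = algebraMap _ _ (PowerSeries.derivative ℂ f)) {f : E}
    (hf : Iter D B f) : ∃ S : Set E, S.Countable ∧ f ∈ S ∧ ∀ (E0 : Subfield E)
      (hE : ∀ x ∈ E0, D x ∈ E0), S ⊆ E0 → ∀ (T : E0 →+* PowerSeries ℂ),
        (∀ x : E0, T ⟨D x, hE x x.2⟩ = PowerSeries.derivative ℂ (T x)) →
          ∀ R, LTow D' (bs B T) R → ∃ R', R ≤ R' ∧ LTow D' (bs B T) R' ∧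
            ∀ hf : f ∈ E0, toLK T ⟨f, hf⟩ ∈ R' := by
  classical
  induction hf with
  | @base b hb =>
    refine ⟨{b}, Set.countable_singleton b, rfl, fun E0 hE hS T hT R hR =>
      ⟨R, le_rfl, hR, fun hf => le_tow hR (mem_bs T hb)⟩⟩
  | @add f g _ _ ih1 ih2 =>
    obtain ⟨S1, c1, m1, h1⟩ := ih1
    obtain ⟨S2, c2, m2, h2⟩ := ih2
    refine ⟨insert (f + g) (S1 ∪ S2), (c1.union c2).insert _, Set.mem_insert _ _,
      fun E0 hE hS T hT R hR => ?_⟩
    have hS1 : S1 ⊆ E0 := fun x hx => hS (Or.inr (Or.inl hx))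
    have hS2 : S2 ⊆ E0 := fun x hx => hS (Or.inr (Or.inr hx))
    obtain ⟨R1, l1, t1, e1⟩ := h1 E0 hE hS1 T hT R hR
    obtain ⟨R2, l2, t2, e2⟩ := h2 E0 hE hS2 T hT R1 t1
    refine ⟨R2, l1.trans l2, t2, fun hf => ?_⟩
    have h3 : (⟨f + g, hf⟩ : E0) = ⟨f, hS1 m1⟩ + ⟨g, hS2 m2⟩ := rfl
    rw [h3, map_add]
    exact R2.add_mem (l2 (e1 _)) (e2 _)
  | @mul f g _ _ ih1 ih2 =>
    obtain ⟨S1, c1, m1, h1⟩ := ih1
    obtain ⟨S2, c2, m2, h2⟩ := ih2
    refine ⟨insert (f * g) (S1 ∪ S2), (c1.union c2).insert _, Set.mem_insert _ _,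
      fun E0 hE hS T hT R hR => ?_⟩
    have hS1 : S1 ⊆ E0 := fun x hx => hS (Or.inr (Or.inl hx))
    have hS2 : S2 ⊆ E0 := fun x hx => hS (Or.inr (Or.inr hx))
    obtain ⟨R1, l1, t1, e1⟩ := h1 E0 hE hS1 T hT R hR
    obtain ⟨R2, l2, t2, e2⟩ := h2 E0 hE hS2 T hT R1 t1
    refine ⟨R2, l1.trans l2, t2, fun hf => ?_⟩
    have h3 : (⟨f * g, hf⟩ : E0) = ⟨f, hS1 m1⟩ * ⟨g, hS2 m2⟩ := rfl
    rw [h3, map_mul]
    exact R2.mul_mem (l2 (e1 _)) (e2 _)
  | @ode n A y _ h2 i0 ih =>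
    choose S c1 m1 h1 using ih
    refine ⟨(⋃ i, ⋃ j, S i j) ∪ Set.range y, ?_, Or.inr ⟨i0, rfl⟩,
      fun E0 hE hS T hT R hR => ?_⟩
    · exact (Set.countable_iUnion fun i => Set.countable_iUnion fun j => c1 i j).union
        (Set.countable_range y)
    have hSij : ∀ i j, S i j ⊆ E0 := fun i j x hx =>
      hS (Or.inl (Set.mem_iUnion.2 ⟨i, Set.mem_iUnion.2 ⟨j, hx⟩⟩))
    have hA : ∀ i j, A i j ∈ E0 := fun i j => hSij i j (m1 i j)
    have hy : ∀ i, y i ∈ E0 := fun i => hS (Or.inr ⟨i, rfl⟩)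
    obtain ⟨R1, l1, t1, e1⟩ : ∃ R', R ≤ R' ∧ LTow D' (bs B T) R' ∧
        ∀ p : Fin n × Fin n, toLK T ⟨A p.1 p.2, hA p.1 p.2⟩ ∈ R' :=
      ext_family (P := fun x => ∃ p : Fin n × Fin n, x = toLK T ⟨A p.1 p.2, hA p.1 p.2⟩)
        (by
          rintro _ ⟨p, rfl⟩ R hR
          obtain ⟨R', a1, a2, a3⟩ := h1 p.1 p.2 E0 hE (hSij p.1 p.2) T hT R hR
          exact ⟨R', a1, a2, a3 _⟩) (fun p => ⟨p, rfl⟩) R hR
    obtain ⟨X, Y, hXY, hdX, hsol⟩ := Pool.Agent.Y954.IL.t_FML n fun i j => T ⟨A i j, hA i j⟩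
    have hdy : ∀ i, PowerSeries.derivative ℂ (T ⟨y i, hy i⟩) =
        ∑ k, T ⟨A i k, hA i k⟩ * T ⟨y k, hy k⟩ := by
      intro i
      rw [← hT ⟨y i, hy i⟩]
      have h3 : (⟨D (y i), hE (y i) (hy i)⟩ : E0) = ∑ k, ⟨A i k, hA i k⟩ * ⟨y k, hy k⟩ := by
        apply Subtype.ext
        rw [AddSubmonoidClass.coe_finsetSum]
        exact h2 i
      refine (congrArg T h3).trans ?_
      rw [map_sum]
      simp only [map_mul]
    obtain ⟨c, hc⟩ := hsol (fun i => T ⟨y i, hy i⟩) hdy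
    let x : Matrix (Fin n) (Fin n) LK := fun a b => algebraMap (PowerSeries ℂ) LK (X a b)
    let v : Matrix (Fin n) (Fin n) LK := fun a b => algebraMap (PowerSeries ℂ) LK (Y a b)
    let m : Matrix (Fin n) (Fin n) LK := fun a b => toLK T ⟨A a b, hA a b⟩
    have hF : Fund D' R1 x v m := by
      refine ⟨?_, fun a b => e1 (a, b), ?_⟩
      · ext a b
        rw [Matrix.mul_apply, Matrix.one_apply]
        have f1 := congrFun (congrFun hXY a) b
        rw [Matrix.mul_apply, Matrix.one_apply] at f1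
        have f2 := congrArg (algebraMap (PowerSeries ℂ) LK) f1
        rw [map_sum] at f2
        simp only [map_mul] at f2
        change ∑ k, algebraMap (PowerSeries ℂ) LK (X a k) * algebraMap (PowerSeries ℂ) LK (Y k b) = _
        rw [f2]
        split_ifs
        · exact map_one _
        · exact map_zero _
      · intro a b
        change D' (algebraMap (PowerSeries ℂ) LK (X a b)) = ∑ k, toLK T ⟨A a k, hA a k⟩ *
          algebraMap (PowerSeries ℂ) LK (X k b)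
        rw [hD', hdX, map_sum]
        refine Finset.sum_congr rfl fun k _ => ?_
        rw [map_mul]
        rfl
    refine ⟨mat R1 x v, l1.trans (le_mat R1 x v), LTow.step t1 hF, fun hf => ?_⟩
    have f1 : toLK T ⟨y i0, hf⟩ = ∑ k, x i0 k * algebraMap ℂ LK (c k) := by
      change algebraMap (PowerSeries ℂ) LK (T ⟨y i0, hf⟩) = _
      rw [hc i0, map_sum]
      refine Finset.sum_congr rfl fun k _ => ?_
      rw [map_mul, ← IsScalarTower.algebraMap_apply]
    rw [f1]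
    exact (mat R1 x v).sum_mem fun k _ => (mat R1 x v).mul_mem (mem_mat_left R1 x v i0 k)
      ((mat R1 x v).algebraMap_mem _)

end Pool.Agent.H436.DT
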