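import Mathlib

/-!
# Linear disjointness over the constants of derivations (L1 of helper436; helper113)
-/

set_option autoImplicit false

namespace Pool.Agent.H436.DT

/-- the vectors obtained from `m` by derivations -/
inductive Orb {Λ F ι : Type} (d : Λ → F → F) (m : ι → F) : (ι → F) → Prop
  | base : Orb d m m
  | step (l : Λ) (w : ι → F) : Orb d m w → Orb d m (fun i => d l (w i))

/-- L1. Linear disjointness over the constants of a family of derivations. -/
theorem lin_disj {Λ F F' : Type} [Field F] [Field F'] (d : Λ → F → F) (d' : Λ → F' → F')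
    (hadd : ∀ l x y, d l (x + y) = d l x + d l y)
    (hmul : ∀ l x y, d l (x * y) = x * d l y + y * d l x)
    (hadd' : ∀ l x y, d' l (x + y) = d' l x + d' l y)
    (hmul' : ∀ l x y, d' l (x * y) = x * d' l y + y * d' l x)
    (T : F →+* F') (hT : ∀ l x, T (d l x) = d' l (T x)) {ι : Type} [Fintype ι] (m : ι → F)
    (c : ι → F') (hc : ∀ l i, d' l (c i) = 0) (hc0 : c ≠ 0) (h : ∑ i, c i * T (m i) = 0) :
    ∃ v : ι → F, v ≠ 0 ∧ (∀ l i, d l (v i) = 0) ∧ ∑ i, v i * m i = 0 := by
  classical
  have dsum : ∀ (l : Λ) (u : ι → F), d l (∑ i, u i) = ∑ i, d l (u i) := fun l u =>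
    map_sum (AddMonoidHom.mk' (d l) (hadd l)) u Finset.univ
  have dsum' : ∀ (l : Λ) (u : ι → F'), d' l (∑ i, u i) = ∑ i, d' l (u i) := fun l u =>
    map_sum (AddMonoidHom.mk' (d' l) (hadd' l)) u Finset.univ
  have dzero : ∀ l, d l 0 = 0 := fun l => (AddMonoidHom.mk' (d l) (hadd l)).map_zero
  have dzero' : ∀ l, d' l 0 = 0 := fun l => (AddMonoidHom.mk' (d' l) (hadd' l)).map_zero
  have done : ∀ l, d l 1 = 0 := by
    intro l
    have h1 := hmul l 1 1
    rw [one_mul, one_mul] at h1
    have h2 : d l 1 + d l 1 = d l 1 + 0 := by rw [add_zero]; exact h1.symm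
    exact add_left_cancel h2
  -- the relation holds for all derivatives
  have hrel : ∀ w : ι → F, Orb d m w → ∑ i, c i * T (w i) = 0 := by
    intro w hw
    induction hw with
    | base => exact h
    | step l w _ ih =>
      have h1 : d' l (∑ i, c i * T (w i)) = 0 := by rw [ih, dzero']
      rw [dsum'] at h1
      rw [← h1]
      refine Finset.sum_congr rfl fun i _ => ?_
      rw [hmul', hc, mul_zero, add_zero, hT]
  -- the span is proper
  let Z : Submodule F (ι → F) :=
    { carrier := {u | ∑ i, c i * T (u i) = 0}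
      add_mem' := by
        intro u w hu hw
        simp only [Set.mem_ofPred_eq, Pi.add_apply, map_add, mul_add, Finset.sum_add_distrib] at hu hw ⊢
        rw [hu, hw, add_zero]
      zero_mem' := by simp
      smul_mem' := by
        intro a u hu
        simp only [Set.mem_ofPred_eq, Pi.smul_apply, smul_eq_mul, map_mul] at hu ⊢
        have h1 : ∑ i, c i * (T a * T (u i)) = T a * ∑ i, c i * T (u i) := by
          rw [Finset.mul_sum]
          exact Finset.sum_congr rfl fun i _ => by ring
        rw [h1, hu, mul_zero] }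
  have hle : Submodule.span F {w | Orb d m w} ≤ Z := Submodule.span_le.2 fun w hw => hrel w hw
  have hlt : Submodule.span F {w | Orb d m w} < ⊤ := by
    rw [lt_top_iff_ne_top]
    intro htop
    apply hc0
    funext i0
    have h1 : (Pi.single i0 1 : ι → F) ∈ Z := hle (by rw [htop]; trivial)
    have h2 : ∑ i, c i * T ((Pi.single i0 1 : ι → F) i) = 0 := h1
    rw [Finset.sum_eq_single i0] at h2
    · rw [Pi.single_eq_same, map_one, mul_one] at h2
      exact h2
    · intro i _ hi
      rw [Pi.single_eq_of_ne hi, map_zero, mul_zero]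
    · intro h3
      exact absurd (Finset.mem_univ _) h3
  obtain ⟨f, hf0, hfker⟩ := Submodule.exists_le_ker_of_lt_top _ hlt
  have hfsum : ∀ u : ι → F, f u = ∑ i, f (Pi.single i 1) * u i := by
    intro u
    have h1 : u = ∑ i, u i • (Pi.single i (1 : F) : ι → F) := by
      funext j
      rw [Finset.sum_apply, Finset.sum_eq_single j]
      · rw [Pi.smul_apply, Pi.single_eq_same, smul_eq_mul, mul_one]
      · intro i _ hi
        rw [Pi.smul_apply, Pi.single_eq_of_ne (Ne.symm hi), smul_zero]
      · intro h3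
        exact absurd (Finset.mem_univ _) h3
    conv_lhs => rw [h1]
    rw [map_sum]
    refine Finset.sum_congr rfl fun i _ => ?_
    rw [map_smul, smul_eq_mul, mul_comm]
  -- a vector with the fewest nonzero entries
  let P : (ι → F) → Prop := fun v => v ≠ 0 ∧ ∀ w, Orb d m w → ∑ i, v i * w i = 0
  have hex : ∃ k : ℕ, ∃ v, P v ∧ (Finset.univ.filter fun i => v i ≠ 0).card = k := by
    refine ⟨_, fun i => f (Pi.single i 1), ⟨?_, ?_⟩, rfl⟩
    · intro h1
      apply hf0
      refine LinearMap.ext fun u => ?_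
      rw [hfsum, LinearMap.zero_apply]
      refine Finset.sum_eq_zero fun i _ => ?_
      rw [congrFun h1 i, Pi.zero_apply, zero_mul]
    · intro w hw
      rw [← hfsum w]
      exact hfker (Submodule.subset_span hw)
  obtain ⟨v, ⟨hv0, hv⟩, hcard⟩ := Nat.find_spec hex
  have hmin : ∀ u, P u → Nat.find hex ≤ (Finset.univ.filter fun i => u i ≠ 0).card := fun u hu =>
    Nat.find_min' hex ⟨u, hu, rfl⟩
  obtain ⟨i0, hi0⟩ : ∃ i0, v i0 ≠ 0 := by
    by_contra hcon
    push Not at hcon
    exact hv0 (funext hcon)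
  set u : ι → F := fun i => (v i0)⁻¹ * v i with hu
  have hu0 : u i0 = 1 := inv_mul_cancel₀ hi0
  have hsupp : ∀ i, u i ≠ 0 ↔ v i ≠ 0 := by
    intro i
    rw [hu]
    simp [hi0]
  have huP : ∀ w, Orb d m w → ∑ i, u i * w i = 0 := by
    intro w hw
    have h1 : ∑ i, u i * w i = (v i0)⁻¹ * ∑ i, v i * w i := by
      rw [Finset.mul_sum]
      exact Finset.sum_congr rfl fun i _ => by rw [hu]; ring
    rw [h1, hv w hw, mul_zero]
  refine ⟨u, fun h1 => ?_, ?_, huP m Orb.base⟩
  · rw [h1] at hu0
    exact one_ne_zero hu0.symm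
  · intro l
    by_contra hcon
    push Not at hcon
    obtain ⟨i1, hi1⟩ := hcon
    have hP : P (fun i => d l (u i)) := by
      refine ⟨fun h1 => hi1 (congrFun h1 i1), fun w hw => ?_⟩
      have h1 : d l (∑ i, u i * w i) = 0 := by rw [huP w hw, dzero]
      rw [dsum] at h1
      have h2 := huP _ (Orb.step l w hw)
      have h3 : ∑ i, d l (u i * w i) = ∑ i, u i * d l (w i) + ∑ i, d l (u i) * w i := by
        rw [← Finset.sum_add_distrib]
        refine Finset.sum_congr rfl fun i _ => ?_
        rw [hmul]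
        ring
      rw [h3, h2, zero_add] at h1
      exact h1
    have h4 := hmin _ hP
    rw [← hcard] at h4
    have h5 : (Finset.univ.filter fun i => d l (u i) ≠ 0) ⊂ (Finset.univ.filter fun i => v i ≠ 0) := by
      rw [Finset.ssubset_iff_of_subset]
      · refine ⟨i0, Finset.mem_filter.2 ⟨Finset.mem_univ _, hi0⟩, fun h6 => ?_⟩
        exact (Finset.mem_filter.1 h6).2 (by rw [hu0, done])
      · intro i hi
        rw [Finset.mem_filter] at hi ⊢
        refine ⟨hi.1, (hsupp i).1 fun h6 => hi.2 ?_⟩
        rw [h6, dzero]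
    exact absurd (Finset.card_lt_card h5) (not_lt.2 h4)

end Pool.Agent.H436.DT
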