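import Pool.Graph.R_seed8.Y377.IL.MerA
import Pool.Agent.H436.DT.L1

/-!
Transcendental elements of differential fields remain transcendental over the base extended by the
complex numbers.
-/

set_option autoImplicit false

namespace Pool.Agent.H436.DT

open Pool.Agent.Y377.IL

section

variable {F : Type} [Field F] {d : F → F} {T : F →+* LK}
  {D' : Derivation ℂ LK LK}

/-- the elements of the ring generated by the images -/
theorem mem_span_of_adjoin (B0 : Subfield F) {x : LK}
    (hx : x ∈ Algebra.adjoin ℂ (T '' (B0 : Set F))) :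
    x ∈ Submodule.span ℂ (T '' (B0 : Set F)) := by
  have h1 : Submonoid.closure (T '' (B0 : Set F)) =
      (B0.toSubring.toSubmonoid.map (T : F →* LK)) := by
    apply le_antisymm
    · rw [Submonoid.closure_le]
      rintro _ ⟨b, hb, rfl⟩
      exact ⟨b, hb, rfl⟩
    · rintro _ ⟨b, hb, rfl⟩
      exact Submonoid.subset_closure ⟨b, hb, rfl⟩
  rw [← Subalgebra.mem_toSubmodule, Algebra.adjoin_eq_span, h1] at hx
  exact hx

/-- finitely many elements of the span -/
theorem exists_fin_span (B0 : Subfield F) (S : Finset LK)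
    (hS : ∀ x ∈ S, x ∈ Submodule.span ℂ (T '' (B0 : Set F))) :
    ∃ (N : ℕ) (b : Fin N → F), (∀ k, b k ∈ B0) ∧
      ∀ x ∈ S, x ∈ Submodule.span ℂ (Set.range fun k => T (b k)) := by
  classical
  have h1 : ∀ x ∈ S, ∃ t : Finset LK, (t : Set LK) ⊆ T '' (B0 : Set F) ∧
      x ∈ Submodule.span ℂ (t : Set LK) := fun x hx =>
    Submodule.mem_span_finite_of_mem_span (hS x hx)
  choose! t ht1 ht2 using h1
  let U : Finset LK := S.biUnion t
  have hU : ∀ u : U, ∃ b ∈ B0, T b = u := by
    rintro ⟨u, hu⟩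
    obtain ⟨x, hx, hux⟩ := Finset.mem_biUnion.1 hu
    obtain ⟨b, hb, hbu⟩ := ht1 x hx hux
    exact ⟨b, hb, hbu⟩
  choose b hb1 hb2 using hU
  let e := U.equivFin
  refine ⟨U.card, fun k => b (e.symm k), fun k => hb1 _, fun x hx => ?_⟩
  refine Submodule.span_mono ?_ (ht2 x hx)
  intro u hu
  have hu' : u ∈ U := Finset.mem_biUnion.2 ⟨x, hx, hu⟩
  refine ⟨e ⟨u, hu'⟩, ?_⟩
  simp only [Equiv.symm_apply_apply, hb2]

/-- an independent family over the constants -/
theorem exists_indep (hC : Cst D') (hT : ∀ x, T (d x) = D' (T x)) (B0 : Subfield F)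
    (S : Finset LK) (hS : ∀ x ∈ S, x ∈ Submodule.span ℂ (T '' (B0 : Set F))) :
    ∃ (N : ℕ) (b : Fin N → F), (∀ k, b k ∈ B0) ∧
      (∀ x ∈ S, x ∈ Submodule.span ℂ (Set.range fun k => T (b k))) ∧
      ∀ v : Fin N → F, (∀ k, d (v k) = 0) → ∑ k, v k * b k = 0 → v = 0 := by
  classical
  let Q : ℕ → Prop := fun N => ∃ b : Fin N → F, (∀ k, b k ∈ B0) ∧
      ∀ x ∈ S, x ∈ Submodule.span ℂ (Set.range fun k => T (b k))
  have hQ : ∃ N, Q N := by
    obtain ⟨N, b, h1, h2⟩ := exists_fin_span B0 S hS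
    exact ⟨N, b, h1, h2⟩
  obtain ⟨b, h1, h2⟩ := Nat.find_spec hQ
  refine ⟨Nat.find hQ, b, h1, h2, fun v hv hsum => ?_⟩
  by_contra hv0
  obtain ⟨k0, hk0⟩ := Function.ne_iff.1 hv0
  rw [Pi.zero_apply] at hk0
  obtain ⟨M, hM⟩ : ∃ M, Nat.find hQ = M + 1 := ⟨Nat.find hQ - 1, by
    have := k0.2
    omega⟩
  refine Nat.find_min hQ (m := M) (by omega) ?_
  let e : Fin (M + 1) ≃ Fin (Nat.find hQ) := finCongr hM.symm
  let k1 : Fin (M + 1) := e.symm k0
  refine ⟨fun k => b (e (k1.succAbove k)), fun k => h1 _, fun x hx => ?_⟩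
  have hval : ∀ k, ∃ c : ℂ, T (v k) = algebraMap ℂ LK c := by
    intro k
    apply hC
    rw [← hT, hv, map_zero]
  choose c hc using hval
  have hT0 : ∑ k, T (v k) * T (b k) = 0 := by
    rw [← map_zero T, ← hsum, map_sum]
    simp only [map_mul]
  have hc0 : c k0 ≠ 0 := by
    intro h0
    apply hk0
    apply T.injective
    rw [hc, h0, map_zero, map_zero]
  have hb0 : T (b k0) ∈ Submodule.span ℂ
      (Set.range fun k => T (b (e (k1.succAbove k)))) := by
    have h3 : ∑ k : Fin (M + 1), T (v (e k)) * T (b (e k)) = 0 := by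
      rw [← hT0]
      exact Equiv.sum_comp e fun k => T (v k) * T (b k)
    rw [Fin.sum_univ_succAbove _ k1] at h3
    have h4 : e k1 = k0 := Equiv.apply_symm_apply e k0
    rw [h4] at h3
    have h5 : T (b k0) = (-(c k0)⁻¹) •
        ∑ k : Fin M, T (v (e (k1.succAbove k))) * T (b (e (k1.succAbove k))) := by
      have h6 : ∑ k : Fin M, T (v (e (k1.succAbove k))) * T (b (e (k1.succAbove k))) =
          - (T (v k0) * T (b k0)) := by
        linear_combination h3
      rw [h6, Algebra.smul_def, hc k0, map_neg, map_inv₀]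
      have h7 : algebraMap ℂ LK (c k0) ≠ 0 := by
        rw [Ne, map_eq_zero]
        exact hc0
      field_simp
    rw [h5]
    refine Submodule.smul_mem _ _ (Submodule.sum_mem _ fun k _ => ?_)
    rw [hc, ← Algebra.smul_def]
    exact Submodule.smul_mem _ _ (Submodule.subset_span ⟨k, rfl⟩)
  refine (Submodule.span_le.2 ?_) (h2 x hx)
  rintro _ ⟨k, rfl⟩
  by_cases hk : k = k0
  · rw [hk]
    exact hb0
  · have h3 : e.symm k ≠ k1 := fun h => hk (e.symm.injective h)
    obtain ⟨j, hj⟩ := Fin.exists_succAbove_eq h3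
    refine Submodule.subset_span ⟨j, ?_⟩
    simp only [hj, Equiv.apply_symm_apply]

/-- **Transfer of transcendence.** -/
theorem alg_transfer (hadd : ∀ x y, d (x + y) = d x + d y)
    (hmul : ∀ x y, d (x * y) = x * d y + y * d x) (hC : Cst D')
    (hT : ∀ x, T (d x) = D' (T x)) (B0 : Subfield F) (hB : ∀ x, d x = 0 → x ∈ B0) {y : F}
    (h : IsAlgebraic (frac (Algebra.adjoin ℂ (T '' (B0 : Set F)))).toSubalgebra (T y)) :
    IsAlgebraic B0 y := by
  classical
  set A := Algebra.adjoin ℂ (T '' (B0 : Set F)) with hA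
  obtain ⟨P, hP0, hP⟩ := h
  have h1 : ∀ k, ∃ r ∈ A, r ≠ 0 ∧ r * (P.coeff k : LK) ∈ A := fun k => (P.coeff k).2
  choose r hr hr0 hrc using h1
  let m := P.natDegree
  let R : LK := ∏ k ∈ Finset.range (m + 1), r k
  have hR0 : R ≠ 0 := Finset.prod_ne_zero_iff.2 fun k _ => hr0 k
  have h2 : ∀ k ∈ Finset.range (m + 1), R * (P.coeff k : LK) ∈ A := by
    intro k hk
    have h3 : R = (∏ j ∈ (Finset.range (m + 1)).erase k, r j) * r k :=
      (Finset.prod_erase_mul _ _ hk).symm
    rw [h3, mul_assoc]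
    exact Subalgebra.mul_mem _ (Subalgebra.prod_mem _ fun j _ => hr j) (hrc k)
  have hPm : P.coeff m ≠ 0 := Polynomial.leadingCoeff_ne_zero.2 hP0
  have hsum : ∑ k ∈ Finset.range (m + 1), R * (P.coeff k : LK) * T y ^ k = 0 := by
    have h5 : ∑ k ∈ Finset.range (m + 1), R * (P.coeff k : LK) * T y ^ k =
        R * Polynomial.aeval (T y) P := by
      rw [Polynomial.aeval_eq_sum_range, Finset.mul_sum]
      refine Finset.sum_congr rfl fun k _ => ?_
      rw [Algebra.smul_def, mul_assoc]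
      rfl
    rw [h5, hP, mul_zero]
  obtain ⟨N, b, hb1, hb2, hb3⟩ := exists_indep (d := d) hC hT B0
    ((Finset.range (m + 1)).image fun k => R * (P.coeff k : LK)) (by
      intro x hx
      obtain ⟨k, hk, rfl⟩ := Finset.mem_image.1 hx
      exact mem_span_of_adjoin B0 (h2 k hk))
  have h3 : ∀ k : Fin (m + 1), ∃ c : Fin N → ℂ,
      ∑ j, c j • T (b j) = R * (P.coeff k : LK) := by
    intro k
    have h4 := hb2 _ (Finset.mem_image_of_mem _ (Finset.mem_range.2 k.2))
    rw [Submodule.mem_span_range_iff_exists_fun] at h4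
    exact h4
  choose c hc using h3
  obtain ⟨v, hv0, hv1, hv2⟩ := lin_disj (Λ := Unit) (fun _ => d) (fun _ => D')
    (fun _ => hadd) (fun _ => hmul) (fun _ x y => map_add D' x y)
    (fun _ x y => by rw [D'.leibniz, smul_eq_mul, smul_eq_mul]) T (fun _ => hT)
    (ι := Fin (m + 1) × Fin N) (fun p => b p.2 * y ^ (p.1 : ℕ))
    (fun p => algebraMap ℂ LK (c p.1 p.2)) (fun _ p => D'.map_algebraMap _) (by
      intro h0
      apply hPm
      have h4 := hc ⟨m, Nat.lt_succ_self m⟩
      have h5 : ∀ j, c ⟨m, Nat.lt_succ_self m⟩ j = 0 := by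
        intro j
        have h6 := congrFun h0 (⟨m, Nat.lt_succ_self m⟩, j)
        rw [Pi.zero_apply] at h6
        exact (map_eq_zero _).1 h6
      simp only [h5, zero_smul, Finset.sum_const_zero] at h4
      exact Subtype.ext ((mul_eq_zero.1 h4.symm).resolve_left hR0)) (by
      rw [Fintype.sum_prod_type]
      have h4 : ∀ k : Fin (m + 1), ∑ j, algebraMap ℂ LK (c k j) * T (b j * y ^ (k : ℕ)) =
          R * (P.coeff k : LK) * T y ^ (k : ℕ) := by
        intro k
        rw [← hc k, Finset.sum_mul]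
        refine Finset.sum_congr rfl fun j _ => ?_
        rw [map_mul, map_pow, Algebra.smul_def, mul_assoc]
      simp only [h4]
      rw [← hsum, Finset.sum_range])
  -- the relation over `B0`
  let q : Polynomial B0 := ∑ k : Fin (m + 1), Polynomial.monomial (k : ℕ)
    (⟨∑ j, v (k, j) * b j, B0.sum_mem fun j _ =>
      B0.mul_mem (hB _ (hv1 () (k, j))) (hb1 j)⟩ : B0)
  refine ⟨q, fun h0 => hv0 ?_, ?_⟩
  · funext ⟨k, j⟩
    have h4 : (q.coeff (k : ℕ) : F) = ∑ j, v (k, j) * b j := by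
      simp only [q, Polynomial.finsetSum_coeff, Polynomial.coeff_monomial]
      rw [Finset.sum_eq_single k]
      · rw [if_pos rfl]
      · intro k' _ hk'
        rw [if_neg]
        intro h5
        exact hk' (Fin.ext h5)
      · intro h5
        exact absurd (Finset.mem_univ _) h5
    rw [h0, Polynomial.coeff_zero] at h4
    have h5 := hb3 (fun j => v (k, j)) (fun j => hv1 () (k, j)) h4.symm
    exact congrFun h5 j
  · simp only [q, map_sum, Polynomial.aeval_monomial]
    rw [← hv2, Fintype.sum_prod_type]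
    refine Finset.sum_congr rfl fun k _ => ?_
    change (∑ j, v (k, j) * b j) * y ^ (k : ℕ) = _
    rw [Finset.sum_mul]
    refine Finset.sum_congr rfl fun j _ => ?_
    ring

end

end Pool.Agent.H436.DT
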