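import Pool.Agent.H436.DT.Pt
import Pool.Agent.H436.DT.Tr
import Pool.Agent.H436.DT.Tow
import Pool.Agent.H436.DT.L2
import Pool.Agent.H436.DT.L3
import Pool.Graph.R_seed8.Y884.IL.Frc

/-!
Points over differential fields given by iterated linear differential equations: they are algebraic
over the base or all points of their loci lie on rational curves of bounded degree.
-/

set_option autoImplicit false

namespace Pool.Agent.H436.DT

open MvPolynomial Pool.Agent.Y377.IL Pool.Agent.Y377.ST Pool.Agent.Q1.SL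
open Pool.Agent.Q171.RC (OnRat NC HasPt ev)
open Pool.Agent.Q309.OFF (curve_in_locus curve_spec)

/-- **The core.** -/
theorem core {K E : Type} [Field K] [CharZero K] [IsAlgClosed K] [Field E] [Algebra K E] {s : ℕ}
    {D : Derivation K E E} {B : IntermediateField K E} (hB : DBase D B)
    {z : Fin (s + 1) → E} (hz : ∀ u, Iter D B (z u)) {u v : Fin (s + 1)} (hv : z v ≠ 0)
    (huv : ¬ IsAlgebraic B (z u / z v))
    (S1 : Finset (MvPolynomial (Fin (s + 1)) K)) (hS1 : ∀ F ∈ S1, ∃ e, F.IsHomogeneous e)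
    (hS1z : ∀ F ∈ S1, aeval z F = 0) :
    ∃ N, ∀ y : Fin (s + 1) → K, y ≠ 0 →
      (∀ G : MvPolynomial (Fin (s + 1)) K, (∃ e, G.IsHomogeneous e) → aeval z G = 0 →
        eval y G = 0) → OnRat (S1 : Set (MvPolynomial (Fin (s + 1)) K)) N y := by
  classical
  have hcE : CharZero E := charZero_of_injective_algebraMap (algebraMap K E).injective
  obtain ⟨k1, _, _, hkc, hka, hk⟩ := exists_ctbleK (k := K) (⋃ F ∈ S1, (F.coeffs : Set K)) (by
    exact Set.Countable.biUnion S1.countable_toSet fun F _ => F.coeffs.countable_toSet)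
  have hkc' : Countable k1 := hkc
  have hka' : IsAlgClosed k1 := hka
  obtain ⟨D', hD', hC'⟩ := Pool.Agent.Y884.IL.t_FRC
  choose S cS mS hS using fun u => (hz u).tow hD'
  -- the countable differential field
  obtain ⟨E0, hE0c, hE0S, hE0⟩ := exists_stable (fun x => D x) (fun x y => map_add D x y)
    (fun x y => by rw [D.leibniz, smul_eq_mul, smul_eq_mul])
    ((⋃ u, S u) ∪ Set.range fun c : k1 => algebraMap K E (algebraMap k1 K c))
    ((Set.countable_iUnion fun u => cS u).union (Set.countable_range _))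
  have hSu : ∀ u, S u ⊆ E0 := fun u x hx => hE0S (Or.inl (Set.mem_iUnion.2 ⟨u, hx⟩))
  have hz0 : ∀ u, z u ∈ E0 := fun u => hSu u (mS u)
  have hc0 : ∀ c : k1, algebraMap K E (algebraMap k1 K c) ∈ E0 := fun c => hE0S (Or.inr ⟨c, rfl⟩)
  have hcE0 : CharZero E0 := inferInstance
  obtain ⟨φ⟩ := exists_embed E0
  let d0 : E0 → E0 := fun x => ⟨D x, hE0 x x.2⟩
  have hd0a : ∀ x y, d0 (x + y) = d0 x + d0 y := fun x y => Subtype.ext (map_add D _ _)
  have hd0m : ∀ x y, d0 (x * y) = x * d0 y + y * d0 x := fun x y => Subtype.ext (by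
    change D ((x : E) * y) = (x : E) * D y + y * D x
    rw [D.leibniz, smul_eq_mul, smul_eq_mul])
  obtain ⟨T, hT0, hT⟩ := exists_taylor d0 hd0a hd0m φ
  have hTd : ∀ x : E0, toLK T (d0 x) = D' (toLK T x) := by
    intro x
    change algebraMap _ _ (T (d0 x)) = D' (algebraMap _ _ (T x))
    rw [hT, hD']
  -- the constants
  let κ : k1 →+* E0 :=
    { toFun := fun c => ⟨algebraMap K E (algebraMap k1 K c), hc0 c⟩
      map_one' := Subtype.ext (by simp)
      map_mul' := fun a b => Subtype.ext (by simp)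
      map_zero' := Subtype.ext (by simp)
      map_add' := fun a b => Subtype.ext (by simp) }
  let τ : k1 →+* ℂ := φ.comp κ
  have hTκ : ∀ c, toLK T (κ c) = algebraMap ℂ LK (τ c) := by
    intro c
    have h1 : d0 (κ c) = 0 := Subtype.ext (D.map_algebraMap _)
    have h2 : D' (toLK T (κ c)) = 0 := by rw [← hTd, h1, map_zero]
    obtain ⟨a, ha⟩ := hC' _ h2
    rw [ha]
    congr 1
    have h3 : T (κ c) = algebraMap ℂ (PowerSeries ℂ) a := by
      apply ty_inj
      rw [← IsScalarTower.algebraMap_apply]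
      exact ha
    have h4 := hT0 (κ c)
    rw [h3] at h4
    rw [← PowerSeries.C_eq_algebraMap, PowerSeries.constantCoeff_C] at h4
    exact h4
  -- the tower
  let x : Fin (s + 1) → LK := fun u => toLK T ⟨z u, hz0 u⟩
  obtain ⟨R, -, hR, hmem⟩ : ∃ R', bs B T ≤ R' ∧ LTow D' (bs B T) R' ∧ ∀ u, x u ∈ R' :=
    ext_family (P := fun a => ∃ u, a = x u) (by
      rintro _ ⟨u, rfl⟩ R hR
      obtain ⟨R', a1, a2, a3⟩ := hS u E0 hE0 (hSu u) T hT R hR
      exact ⟨R', a1, a2, a3 _⟩) (fun u => ⟨u, rfl⟩) _ LTow.base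
  have hxv : x v ≠ 0 := by
    intro h0
    apply hv
    have h1 := (toLK T).injective (h0.trans (map_zero (toLK T)).symm)
    exact congrArg Subtype.val h1
  have hna : ¬ IsAlgebraic (bs B T) (x u / x v) := by
    intro h0
    have h1 : x u / x v = toLK T (⟨z u, hz0 u⟩ / ⟨z v, hz0 v⟩) := (map_div₀ _ _ _).symm
    rw [h1] at h0
    have h2 := alg_transfer hd0a hd0m hC' hTd (subB B E0) (fun a ha => by
      rw [mem_subB]
      exact hB.const _ (congrArg Subtype.val ha)) h0
    apply huv
    obtain ⟨P, hP0, hP⟩ := h2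
    let ι : subB B E0 →+* B :=
      { toFun := fun a => ⟨((a : E0) : E), a.2⟩
        map_one' := rfl
        map_mul' := fun _ _ => rfl
        map_zero' := rfl
        map_add' := fun _ _ => rfl }
    refine ⟨P.map ι, (Polynomial.map_ne_zero_iff ι.injective).2 hP0, ?_⟩
    have h3 := congrArg (E0.subtype : E0 → E) hP
    rw [map_zero, Polynomial.aeval_def, Polynomial.hom_eval₂] at h3
    rw [Polynomial.aeval_def, Polynomial.eval₂_map]
    exact h3
  obtain ⟨M, _, _, p, hp1, hp2⟩ := rat_point hC' (bs_good hB.der hE0 T hT hD') hR hmem hxv hna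
  obtain ⟨a, ha1, ha2⟩ := poly_point hp2
  -- forms over `k1`
  have hform : ∀ (G : MvPolynomial (Fin (s + 1)) k1) (e : ℕ), G.IsHomogeneous e →
      (aeval a (map τ G) = 0 ↔ aeval z (map (algebraMap k1 K) G) = 0) := by
    intro G e hG
    rw [ha2 _ e (hG.map τ), hp1 _ e (hG.map τ)]
    have h1 : aeval x (map τ G) = toLK T (eval₂ κ (fun u => ⟨z u, hz0 u⟩) G) := by
      rw [MvPolynomial.aeval_def, MvPolynomial.eval₂_map, MvPolynomial.eval₂_comp_left]
      congr 1
      ext c
      exact (hTκ c).symm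
    have h2 : ((eval₂ κ (fun u => (⟨z u, hz0 u⟩ : E0)) G : E0) : E) =
        aeval z (map (algebraMap k1 K) G) := by
      rw [MvPolynomial.aeval_def, MvPolynomial.eval₂_map]
      have h3 := MvPolynomial.eval₂_comp_left E0.subtype κ (fun u => (⟨z u, hz0 u⟩ : E0)) G
      exact h3
    rw [h1, map_eq_zero_iff _ (toLK T).injective, ← h2]
    exact ⟨fun h => congrArg Subtype.val h, fun h => Subtype.ext h⟩
  -- the forms of `S1` over `k1`
  let S' : Set (MvPolynomial (Fin (s + 1)) k1) := {F | map (algebraMap k1 K) F ∈ S1}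
  have hS' : ∀ F ∈ S1, ∃ F' ∈ S', map (algebraMap k1 K) F' = F := by
    intro F hF
    obtain ⟨F', hF'⟩ : ∃ F' : MvPolynomial (Fin (s + 1)) k1, map (algebraMap k1 K) F' = F :=
      mem_range_map_iff_coeffs_subset.2 fun c hc => hk c (Set.mem_biUnion (x := F) hF hc)
    refine ⟨F', ?_, hF'⟩
    change map (algebraMap k1 K) F' ∈ S1
    rw [hF']
    exact hF
  have hS'h : ∀ F ∈ S', ∃ e, F.IsHomogeneous e := by
    intro F hF
    obtain ⟨e, he⟩ := hS1 _ hF
    exact ⟨e, IsHomogeneous.of_map (algebraMap k1 K).injective he⟩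
  let N : ℕ := Finset.univ.sup fun j => (a j).natDegree
  have haN : ∀ j, (a j).natDegree ≤ N := fun j =>
    Finset.le_sup (f := fun j => (a j).natDegree) (Finset.mem_univ j)
  obtain ⟨Gs, hGs1, hGs2⟩ := onRat_locus2 (k := k1) (L := K) hS'h N
  -- the locus contains the point
  have hall : ∀ G ∈ Gs, aeval z (map (algebraMap k1 K) G) = 0 := by
    intro G hG
    by_contra hne
    obtain ⟨e, he⟩ := hGs1 G hG
    let _ : Algebra k1 M := ((algebraMap ℂ M).comp τ).toAlgebra
    have hmap : ∀ F : MvPolynomial (Fin (s + 1)) k1, (aeval a F : Polynomial M) =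
        aeval a (map τ F) := by
      intro F
      rw [MvPolynomial.aeval_def, MvPolynomial.aeval_def, MvPolynomial.eval₂_map]
      rfl
    obtain ⟨q, hq1, hq2, hq3, hq4⟩ := curve_spec a ha1 (G' := G) (by
      rw [hmap, Ne, hform G e he]
      exact hne)
    apply hq3
    have hqm : ∀ F : MvPolynomial (Fin (s + 1)) k1,
        aeval (fun j => (q j).map (algebraMap k1 K)) (map (algebraMap k1 K) F) =
          (aeval q F : Polynomial k1).map (algebraMap k1 K) := by
      intro F
      rw [MvPolynomial.aeval_map_algebraMap]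
      have h1 := MvPolynomial.comp_aeval_apply (f := q)
        (Polynomial.mapAlgHom (Algebra.ofId k1 K)) F
      exact h1.symm
    have h2 := curve_in_locus (L := K) (S := map (algebraMap k1 K) '' S') (N := N)
      (G := map (algebraMap k1 K) G) (fun w hw hon => by
        have h3 := (hGs2 w hw).2 hon G hG
        rw [eval_map]
        exact h3) (c := fun j => (q j).map (algebraMap k1 K)) (by
        obtain ⟨b1, b2, i, j, hij⟩ := hq1
        refine ⟨algebraMap k1 K b1, algebraMap k1 K b2, i, j, fun h0 => hij ?_⟩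
        apply (algebraMap k1 K).injective
        rw [map_mul, map_mul]
        simp only [Polynomial.eval_map, Polynomial.eval₂_at_apply] at h0
        exact h0) (fun j => (Polynomial.natDegree_map_le).trans ((hq2 j).trans (haN j))) (by
        rintro _ ⟨F, hF, rfl⟩
        rw [hqm, hq4 F, Polynomial.map_zero]
        obtain ⟨e', he'⟩ := hS'h F hF
        rw [hmap, hform F e' he']
        exact hS1z _ hF)
    rw [hqm] at h2
    exact (Polynomial.map_eq_zero_iff (algebraMap k1 K).injective).1 h2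
  refine ⟨N, fun y hy0 hy => ?_⟩
  obtain ⟨p, h1, h2, h3, h4⟩ := (hGs2 y hy0).1 fun G hG => by
    obtain ⟨e, he⟩ := hGs1 G hG
    have h5 := hy _ ⟨e, he.map _⟩ (hall G hG)
    rw [eval_map] at h5
    exact h5
  refine ⟨p, h1, h2, fun F hF => ?_, h4⟩
  obtain ⟨F', hF', rfl⟩ := hS' F hF
  exact h3 _ ⟨F', hF', rfl⟩

end Pool.Agent.H436.DT
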