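import Mathlib

/-!
# L6: separately algebraic elements of a differential field are algebraic (helper903)
-/

set_option autoImplicit false

namespace Pool.Agent.H436.DT.SA

open Polynomial

section clo

variable {E : Type} [Field E]

lemma isAlg_of_poly {A : Type} [CommRing A] [Algebra A E] {x : E} (p : E[X]) (hp : p ≠ 0)
    (hc : ∀ n, p.coeff n ∈ Set.range (algebraMap A E)) (hx : p.eval x = 0) : IsAlgebraic A x := by
  have h1 : p ∈ Polynomial.lifts (algebraMap A E) := by
    rw [Polynomial.lifts_iff_coeff_lifts]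
    exact hc
  obtain ⟨q, hq⟩ := (Polynomial.mem_lifts p).1 h1
  refine ⟨q, ?_, ?_⟩
  · rintro rfl
    exact hp (by rw [← hq, Polynomial.map_zero])
  · rw [← Polynomial.eval_map_algebraMap, hq, hx]

lemma poly_of_isAlg {A : Type} [Field A] [Algebra A E] {x : E} (h : IsAlgebraic A x) :
    ∃ p : E[X], p ≠ 0 ∧ (∀ n, p.coeff n ∈ Set.range (algebraMap A E)) ∧ p.eval x = 0 := by
  obtain ⟨q, hq, hx⟩ := h
  refine ⟨q.map (algebraMap A E), ?_, ?_, ?_⟩
  · exact (Polynomial.map_ne_zero_iff (algebraMap A E).injective).2 hq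
  · intro n
    rw [Polynomial.coeff_map]
    exact ⟨_, rfl⟩
  · rw [Polynomial.eval_map_algebraMap, hx]

/-- the relative algebraic closure -/
noncomputable def clo (A : Subfield E) : Subfield E := (algebraicClosure A E).toSubfield

lemma mem_clo {A : Subfield E} {x : E} : x ∈ clo A ↔ IsAlgebraic A x := by
  show x ∈ algebraicClosure A E ↔ _
  exact mem_algebraicClosure_iff

lemma mem_clo_iff {A : Subfield E} {x : E} :
    x ∈ clo A ↔ ∃ p : E[X], p ≠ 0 ∧ (∀ n, p.coeff n ∈ A) ∧ p.eval x = 0 := by
  rw [mem_clo]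
  constructor
  · intro h
    obtain ⟨p, hp, hc, hx⟩ := poly_of_isAlg h
    refine ⟨p, hp, fun n => ?_, hx⟩
    obtain ⟨a, ha⟩ := hc n
    rw [← ha]
    exact a.2
  · rintro ⟨p, hp, hc, hx⟩
    exact isAlg_of_poly p hp (fun n => ⟨⟨p.coeff n, hc n⟩, rfl⟩) hx

lemma le_clo (A : Subfield E) : A ≤ clo A := fun x hx =>
  mem_clo.2 (isAlgebraic_algebraMap (⟨x, hx⟩ : A))

lemma clo_le {A B : Subfield E} (h : B ≤ clo A) : clo B ≤ clo A := by
  intro x hx
  obtain ⟨p, hp, hc, hpx⟩ := mem_clo_iff.1 hx
  rw [mem_clo]
  have h1 : IsAlgebraic (algebraicClosure A E) x :=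
    isAlg_of_poly p hp (fun n => ⟨⟨p.coeff n, h (hc n)⟩, rfl⟩) hpx
  exact h1.restrictScalars A

lemma clo_mono {A B : Subfield E} (h : A ≤ B) : clo A ≤ clo B := clo_le (h.trans (le_clo B))

end clo

section der

variable {K E : Type} [Field K] [Field E] [Algebra K E]

/-- the constants of a family of derivations -/
def cs {Λ : Type} (D : Λ → Derivation K E E) (P : Λ → Prop) : Subfield E where
  carrier := {x | ∀ l, P l → D l x = 0}
  mul_mem' := by
    intro a b ha hb l hl
    rw [Derivation.leibniz, ha l hl, hb l hl, smul_zero, smul_zero, add_zero]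
  one_mem' := fun l _ => (D l).map_one_eq_zero
  add_mem' := by
    intro a b ha hb l hl
    rw [map_add, ha l hl, hb l hl, add_zero]
  zero_mem' := fun l _ => map_zero (D l)
  neg_mem' := by
    intro a ha l hl
    rw [map_neg, ha l hl, neg_zero]
  inv_mem' := by
    intro a ha l hl
    rw [Derivation.leibniz_inv, ha l hl, smul_zero]

lemma mem_cs {Λ : Type} {D : Λ → Derivation K E E} {P : Λ → Prop} {x : E} :
    x ∈ cs D P ↔ ∀ l, P l → D l x = 0 := Iff.rfl

/-- the subfield generated by a stable set is stable -/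
lemma closure_stable (D : Derivation K E E) (s : Set E)
    (h : ∀ x ∈ s, D x ∈ Subfield.closure s) : ∀ x ∈ Subfield.closure s, D x ∈ Subfield.closure s := by
  intro x hx
  induction hx using Subfield.closure_induction with
  | mem x hx => exact h x hx
  | one =>
    rw [D.map_one_eq_zero]
    exact zero_mem _
  | add x y _ _ hx hy =>
    rw [map_add]
    exact add_mem hx hy
  | neg x _ hx =>
    rw [map_neg]
    exact neg_mem hx
  | inv x hx0 hx =>
    rw [Derivation.leibniz_inv]
    exact mul_mem (neg_mem (pow_mem (inv_mem hx0) 2)) hx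
  | mul x y hx0 hy0 hx hy =>
    rw [Derivation.leibniz]
    exact add_mem (mul_mem hx0 hy) (mul_mem hy0 hx)

/-- the relative algebraic closure of a stable subfield is stable -/
lemma clo_stable [CharZero E] (D : Derivation K E E) (A : Subfield E) (h : ∀ x ∈ A, D x ∈ A) :
    ∀ x ∈ clo A, D x ∈ clo A := by
  intro x hx
  have halg : IsAlgebraic A x := mem_clo.1 hx
  have hint : IsIntegral A x := halg.isIntegral
  have hc0 : CharZero A := (algebraMap A E).charZero_iff (algebraMap A E).injective |>.2 inferInstance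
  have hsep : (minpoly A x).Separable := (minpoly.irreducible hint).separable
  have hder := hsep.aeval_derivative_ne_zero (minpoly.aeval A x)
  obtain ⟨q, hq⟩ : ∃ q : E[X], q = (minpoly A x).map (algebraMap A E) := ⟨_, rfl⟩
  have hqc : ∀ n, q.coeff n ∈ A := by
    intro n
    rw [hq, Polynomial.coeff_map]
    exact ((minpoly A x).coeff n).2
  have hqx : q.eval x = 0 := by
    rw [hq, Polynomial.eval_map_algebraMap, minpoly.aeval]
  have hqd : q.derivative.eval x ≠ 0 := by
    rw [hq, Polynomial.derivative_map, Polynomial.eval_map_algebraMap]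
    exact hder
  have hsum : ∑ n ∈ Finset.range (q.natDegree + 1), D (q.coeff n) * x ^ n +
      q.derivative.eval x * D x = 0 := by
    have h1 : D (q.eval x) = 0 := by rw [hqx, map_zero]
    rw [Polynomial.eval_eq_sum_range, map_sum] at h1
    have h2 : q.derivative.eval x =
        ∑ n ∈ Finset.range (q.natDegree + 1), q.coeff n * n * x ^ (n - 1) := by
      rw [Polynomial.derivative_eval, Polynomial.sum_over_range]
      intro n
      rw [zero_mul, zero_mul]
    rw [h2, Finset.sum_mul, ← Finset.sum_add_distrib, ← h1]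
    refine Finset.sum_congr rfl fun n _ => ?_
    rw [Derivation.leibniz, Derivation.leibniz_pow]
    simp only [smul_eq_mul, nsmul_eq_mul]
    ring
  have hDx : D x = -(∑ n ∈ Finset.range (q.natDegree + 1), D (q.coeff n) * x ^ n) /
      q.derivative.eval x := by
    rw [eq_div_iff hqd]
    linear_combination hsum
  have hAc := le_clo A
  rw [hDx]
  refine div_mem (neg_mem (sum_mem fun n _ => mul_mem (hAc (h _ (hqc n))) (pow_mem hx n))) ?_
  rw [Polynomial.derivative_eval, Polynomial.sum_over_range]
  · refine sum_mem fun n _ => mul_mem (mul_mem (hAc (hqc n)) ?_) (pow_mem hx _)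
    exact natCast_mem _ n
  · intro n
    rw [zero_mul, zero_mul]

/-- constants which are independent over the constants of `F` are independent over `F` -/
lemma li_of {Λ : Type} (D : Λ → Derivation K E E) (k' F : Subfield E)
    (hk' : ∀ x, x ∈ k' ↔ ∀ l, D l x = 0) (hF : ∀ l, ∀ x ∈ F, D l x ∈ F) (b : Set E)
    (hb : b ⊆ k') (hli : LinearIndependent ↥(k' ⊓ F) (Subtype.val : b → E)) :
    LinearIndependent F (Subtype.val : b → E) := by
  classical
  rw [linearIndependent_iff'] at hli ⊢
  have hbl : ∀ (l : Λ) (i : b), D l (i : E) = 0 := fun l i => (hk' _).1 (hb i.2) l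
  intro s
  induction s using Finset.induction_on with
  | empty =>
    intro g _ i hi
    exact absurd hi (Finset.notMem_empty i)
  | insert j s hj ih =>
    intro g hg
    have hfj : g j = 0 := by
      by_contra hne
      have hne' : ((g j : F) : E) ≠ 0 := fun h => hne (Subtype.ext h)
      have hg1 : ∑ i ∈ insert j s, (g i / g j) • (i : E) = 0 := by
        have h1 : ∑ i ∈ insert j s, (g i / g j) • (i : E) =
            (g j)⁻¹ • ∑ i ∈ insert j s, g i • (i : E) := by
          rw [Finset.smul_sum]
          refine Finset.sum_congr rfl fun i _ => ?_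
          rw [smul_smul]
          congr 1
          rw [div_eq_mul_inv, mul_comm]
        rw [h1, hg, smul_zero]
      rw [Finset.sum_insert hj, div_self hne, one_smul] at hg1
      have hd : ∀ l, ∀ i ∈ s, D l (((g i / g j : F)) : E) = 0 := by
        intro l
        have h1 := congrArg (D l) hg1
        rw [map_add, hbl l j, zero_add, map_sum, map_zero] at h1
        have h2 : ∑ i ∈ s, (⟨D l (((g i / g j : F)) : E), hF l _ (g i / g j).2⟩ : F) • (i : E) = 0 := by
          rw [← h1]
          refine Finset.sum_congr rfl fun i _ => ?_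
          have h3 : (g i / g j) • (i : E) = (((g i / g j : F)) : E) * (i : E) := rfl
          rw [h3, Derivation.leibniz, hbl l i, smul_zero, zero_add]
          show D l (((g i / g j : F)) : E) * (i : E) = _
          rw [smul_eq_mul, mul_comm]
        intro i hi
        exact congrArg Subtype.val (ih _ h2 i hi)
      have hmem : ∀ i ∈ s, (((g i / g j : F)) : E) ∈ k' ⊓ F := fun i hi =>
        ⟨(hk' _).2 fun l => hd l i hi, (g i / g j).2⟩
      obtain ⟨w, hw⟩ : ∃ w : b → ↥(k' ⊓ F), w = fun i =>
          if i = j then 1 else if h : i ∈ s then ⟨_, hmem i h⟩ else 0 := ⟨_, rfl⟩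
      have h3 : ∑ i ∈ insert j s, w i • (i : E) = 0 := by
        rw [Finset.sum_insert hj, ← hg1, hw]
        congr 1
        · simp only [if_true, one_smul]
        · refine Finset.sum_congr rfl fun i hi => ?_
          have hij : i ≠ j := fun h => hj (h ▸ hi)
          simp only [if_neg hij, dif_pos hi]
          rfl
      have h4 := hli (insert j s) w h3 j (Finset.mem_insert_self j s)
      rw [hw] at h4
      simp only [if_true] at h4
      exact one_ne_zero h4
    rw [Finset.sum_insert hj, hfj, zero_smul, zero_add] at hg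
    intro i hi
    rcases Finset.mem_insert.1 hi with h | h
    · rw [h, hfj]
    · exact ih g hg i h

/-- linear functionals which preserve the constants -/
lemma exists_fun {k' F : Subfield E} (hli : ∀ b : Set E, b ⊆ k' →
    LinearIndependent ↥(k' ⊓ F) (Subtype.val : b → E) →
      LinearIndependent F (Subtype.val : b → E)) {a : E} (ha : a ≠ 0) :
    ∃ φ : E →ₗ[F] F, (∀ x ∈ k', ((φ x : F) : E) ∈ k') ∧ φ a ≠ 0 := by
  classical
  obtain ⟨b, hb, hspan, hbli⟩ := exists_linearIndependent ↥(k' ⊓ F) (k' : Set E)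
  have h1 : LinearIndepOn F id b := hli b hb hbli
  obtain ⟨B, hB⟩ : ∃ B, B = Module.Basis.extend h1 := ⟨_, rfl⟩
  obtain ⟨i, hi⟩ : ∃ i, B.repr a i ≠ 0 := by
    by_contra hcon
    push Not at hcon
    apply ha
    have h2 : B.repr a = 0 := Finsupp.ext hcon
    exact (LinearEquiv.map_eq_zero_iff B.repr).1 h2
  have key : ∀ x ∈ Submodule.span ↥(k' ⊓ F) b, ((B.coord i x : F) : E) ∈ k' := by
    intro x hx
    induction hx using Submodule.span_induction with
    | mem e he =>
      have h3 : e ∈ h1.extend (Set.subset_univ b) := h1.subset_extend _ he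
      have h4 : B ⟨e, h3⟩ = e := by
        rw [hB]
        exact Module.Basis.extend_apply_self h1 ⟨e, h3⟩
      have h5 : B.coord i e = if (⟨e, h3⟩ : h1.extend (Set.subset_univ b)) = i then 1 else 0 := by
        rw [Module.Basis.coord_apply]
        have h6 : B.repr e = Finsupp.single (⟨e, h3⟩ : h1.extend (Set.subset_univ b)) 1 := by
          rw [← B.repr_self, h4]
        rw [h6, Finsupp.single_apply]
      rw [h5]
      split_ifs
      · exact one_mem k'
      · exact zero_mem k'
    | zero =>
      rw [map_zero]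
      exact zero_mem k'
    | add u v _ _ ihu ihv =>
      rw [map_add]
      exact add_mem ihu ihv
    | smul c u _ ihu =>
      have h3 : c • u = (⟨(c : E), c.2.2⟩ : F) • u := rfl
      rw [h3, map_smul]
      exact mul_mem c.2.1 ihu
  refine ⟨B.coord i, fun x hx => key x ?_, ?_⟩
  · rw [hspan]
    exact Submodule.subset_span hx
  · rw [Module.Basis.coord_apply]
    exact hi

/-- clearing denominators -/
lemma clear (s : Set E) (c : ℕ → E) (N : ℕ) (h : ∀ n, c n ∈ Subfield.closure s) :
    ∃ V ∈ Subring.closure s, V ≠ 0 ∧ ∀ n < N, V * c n ∈ Subring.closure s := by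
  induction N with
  | zero => exact ⟨1, one_mem _, one_ne_zero, fun n hn => absurd hn (Nat.not_lt_zero n)⟩
  | succ N ih =>
    obtain ⟨V, hV, hV0, hVc⟩ := ih
    obtain ⟨u, hu, v, hv, huv⟩ := Subfield.mem_closure_iff.1 (h N)
    by_cases hv0 : v = 0
    · refine ⟨V, hV, hV0, fun n hn => ?_⟩
      rcases Nat.lt_succ_iff_lt_or_eq.1 hn with h1 | h1
      · exact hVc n h1
      · rw [h1, ← huv, hv0, div_zero, mul_zero]
        exact zero_mem _
    · refine ⟨V * v, mul_mem hV hv, mul_ne_zero hV0 hv0, fun n hn => ?_⟩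
      rcases Nat.lt_succ_iff_lt_or_eq.1 hn with h1 | h1
      · have h2 : V * v * c n = V * c n * v := by ring
        rw [h2]
        exact mul_mem (hVc n h1) hv
      · have h2 : V * v * c n = V * u := by
          rw [h1, ← huv]
          field_simp
        rw [h2]
        exact mul_mem hV hu

/-- **descent of algebraicity** -/
lemma descent {Λ : Type} (D : Λ → Derivation K E E) (k' F : Subfield E)
    (hk' : ∀ x, x ∈ k' ↔ ∀ l, D l x = 0) (hF : ∀ l, ∀ x ∈ F, D l x ∈ F) (S : Set E)
    (hS : S ⊆ F) {y : E} (hy : y ∈ F) (h : y ∈ clo (Subfield.closure (k' ∪ S))) :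
    y ∈ clo (Subfield.closure (((k' ⊓ F : Subfield E) : Set E) ∪ S)) := by
  classical
  obtain ⟨p, hp, hpc, hpy⟩ := mem_clo_iff.1 h
  obtain ⟨V, hV, hV0, hVc⟩ := clear ((k' : Set E) ∪ S) p.coeff (p.natDegree + 1) hpc
  obtain ⟨n₀, hn₀⟩ : ∃ n, p.coeff n ≠ 0 := by
    by_contra hcon
    push Not at hcon
    exact hp (Polynomial.ext fun n => by rw [hcon n, Polynomial.coeff_zero])
  have hn₀N : n₀ < p.natDegree + 1 := Nat.lt_succ_of_le (Polynomial.le_natDegree_of_ne_zero hn₀)
  obtain ⟨φ, hφ, hφ0⟩ := exists_fun (k' := k') (F := F)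
    (fun b hb hli => li_of D k' F hk' hF b hb hli) (mul_ne_zero hV0 hn₀)
  obtain ⟨A0, hA0⟩ : ∃ A0, A0 = Subfield.closure (((k' ⊓ F : Subfield E) : Set E) ∪ S) := ⟨_, rfl⟩
  have hA0F : A0 ≤ F := by
    rw [hA0, Subfield.closure_le]
    rintro x (hx | hx)
    · exact hx.2
    · exact hS hx
  have hk0 : ∀ x ∈ k' ⊓ F, x ∈ A0 := by
    intro x hx
    rw [hA0]
    exact Subfield.subset_closure (Or.inl hx)
  -- the values of the functional
  have hφA : ∀ r ∈ Subring.closure ((k' : Set E) ∪ S), ((φ r : F) : E) ∈ A0 := by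
    intro r hr
    have h1 : r ∈ Algebra.adjoin A0 (k' : Set E) := by
      have h2 : Subring.closure ((k' : Set E) ∪ S) ≤ (Algebra.adjoin A0 (k' : Set E)).toSubring := by
        rw [Subring.closure_le]
        rintro x (hx | hx)
        · exact Algebra.subset_adjoin hx
        · have h3 : x ∈ A0 := by
            rw [hA0]
            exact Subfield.subset_closure (Or.inr hx)
          exact (Algebra.adjoin A0 (k' : Set E)).algebraMap_mem ⟨x, h3⟩
      exact h2 hr
    have h2 : r ∈ Submodule.span A0 (k' : Set E) := by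
      have h3 := Algebra.adjoin_eq_span A0 (k' : Set E)
      have h4 : Submonoid.closure (k' : Set E) = k'.toSubmonoid := Submonoid.closure_eq k'.toSubmonoid
      rw [h4] at h3
      have h5 : r ∈ Subalgebra.toSubmodule (Algebra.adjoin A0 (k' : Set E)) := h1
      rw [h3] at h5
      exact h5
    clear hr h1
    induction h2 using Submodule.span_induction with
    | mem x hx => exact hk0 _ ⟨hφ x hx, (φ x).2⟩
    | zero =>
      rw [map_zero]
      exact zero_mem A0
    | add u v _ _ ihu ihv =>
      rw [map_add]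
      exact add_mem ihu ihv
    | smul c u _ ihu =>
      have h3 : c • u = (⟨(c : E), hA0F c.2⟩ : F) • u := rfl
      rw [h3, map_smul]
      exact mul_mem c.2 ihu
  rw [← hA0, mem_clo_iff]
  refine ⟨∑ n ∈ Finset.range (p.natDegree + 1),
    Polynomial.monomial n ((φ (V * p.coeff n) : F) : E), ?_, ?_, ?_⟩
  · intro h0
    have h1 := congrArg (fun P : E[X] => P.coeff n₀) h0
    simp only [Polynomial.finsetSum_coeff, Polynomial.coeff_monomial, Polynomial.coeff_zero] at h1
    rw [Finset.sum_ite_eq' (Finset.range (p.natDegree + 1)) n₀, if_pos (Finset.mem_range.2 hn₀N)] at h1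
    exact hφ0 (Subtype.ext h1)
  · intro n
    simp only [Polynomial.finsetSum_coeff, Polynomial.coeff_monomial]
    refine sum_mem fun m hm => ?_
    split_ifs
    · exact hφA _ (hVc m (Finset.mem_range.1 hm))
    · exact zero_mem A0
  · rw [Polynomial.eval_finsetSum]
    simp only [Polynomial.eval_monomial]
    have h1 : ∀ n, ((φ (V * p.coeff n) : F) : E) * y ^ n =
        ((φ (V * (p.coeff n * y ^ n)) : F) : E) := by
      intro n
      have h2 : V * (p.coeff n * y ^ n) = ((⟨y, hy⟩ : F) ^ n) • (V * p.coeff n) := by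
        show _ = (((⟨y, hy⟩ : F) ^ n : F) : E) * (V * p.coeff n)
        rw [SubmonoidClass.coe_pow]
        ring
      rw [h2, map_smul]
      show _ = (((⟨y, hy⟩ : F) ^ n : F) : E) * ((φ (V * p.coeff n) : F) : E)
      rw [SubmonoidClass.coe_pow]
      ring
    simp only [h1]
    rw [← AddSubmonoidClass.coe_finsetSum, ← map_sum, ← Finset.mul_sum,
      ← Polynomial.eval_eq_sum_range, hpy, mul_zero, map_zero]
    rfl

end der

/-- **L6. Separately algebraic elements are algebraic.** -/
theorem sep_alg {K E : Type} [Field K] [CharZero K] [Field E] [Algebra K E] {g : ℕ}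
    (D : Fin g → Derivation K E E) (hcomm : ∀ i j x, D i (D j x) = D j (D i x))
    (hK : ∀ x, (∀ i, D i x = 0) → x ∈ (algebraMap K E).range)
    (t : Fin g → E) (ht : ∀ i j, D i (t j) = if i = j then 1 else 0) {y : E}
    (hy : ∀ i, IsAlgebraic (IntermediateField.adjoin K ({x | D i x = 0} ∪ {t i})) y) :
    IsAlgebraic (IntermediateField.adjoin K (Set.range t)) y := by
  have hE0 : CharZero E :=
    (algebraMap K E).charZero_iff (algebraMap K E).injective |>.1 inferInstance
  -- the fields `C i`
  obtain ⟨C, hC⟩ : ∃ C : Fin g → Subfield E, ∀ i x, x ∈ C i ↔ D i x = 0 := by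
    refine ⟨fun i => cs D (fun j => j = i), fun i x => ?_⟩
    rw [mem_cs]
    constructor
    · exact fun h => h i rfl
    · rintro h j rfl
      exact h
  have hL : ∀ i, y ∈ clo (Subfield.closure ((C i : Set E) ∪ {t i})) := by
    intro i
    obtain ⟨p, hp, hc, hx⟩ := poly_of_isAlg (hy i)
    rw [mem_clo_iff]
    refine ⟨p, hp, fun n => ?_, hx⟩
    obtain ⟨a, ha⟩ := hc n
    rw [← ha]
    have h1 : (a : E) ∈ Subfield.closure (Set.range (algebraMap K E) ∪
        ({x | D i x = 0} ∪ {t i})) := a.2
    have h2 : Subfield.closure (Set.range (algebraMap K E) ∪ ({x | D i x = 0} ∪ {t i})) ≤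
        Subfield.closure ((C i : Set E) ∪ {t i}) := by
      rw [Subfield.closure_le]
      rintro x (⟨c, rfl⟩ | hx | hx)
      · exact Subfield.subset_closure (Or.inl ((hC i _).2 ((D i).map_algebraMap c)))
      · exact Subfield.subset_closure (Or.inl ((hC i _).2 hx))
      · exact Subfield.subset_closure (Or.inr hx)
    exact h2 h1
  have hLst : ∀ i j, ∀ x ∈ clo (Subfield.closure ((C i : Set E) ∪ {t i})),
      D j x ∈ clo (Subfield.closure ((C i : Set E) ∪ {t i})) := by
    intro i j
    refine clo_stable (D j) _ (closure_stable (D j) _ ?_)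
    rintro x (hx | hx)
    · refine Subfield.subset_closure (Or.inl ((hC i _).2 ?_))
      rw [hcomm, (hC i x).1 hx, map_zero]
    · rw [Set.mem_singleton_iff.1 hx, ht]
      split_ifs
      · exact one_mem _
      · exact zero_mem _
  -- the fields `Kr r` and the sets `T r`
  obtain ⟨Kr, hKr⟩ : ∃ Kr : ℕ → Subfield E, ∀ r x, x ∈ Kr r ↔ ∀ j : Fin g, j.val < r → D j x = 0 :=
    ⟨fun r => cs D (fun j => j.val < r), fun r x => mem_cs⟩
  obtain ⟨T, hT⟩ : ∃ T : ℕ → Set E, ∀ r x, x ∈ T r ↔ ∃ j : Fin g, j.val < r ∧ x = t j :=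
    ⟨fun r => {x | ∃ j : Fin g, j.val < r ∧ x = t j}, fun r x => Iff.rfl⟩
  have key : ∀ r, r ≤ g → y ∈ clo (Subfield.closure ((Kr r : Set E) ∪ T r)) := by
    intro r
    induction r with
    | zero =>
      intro _
      refine le_clo _ (Subfield.subset_closure (Or.inl ((hKr 0 y).2 ?_)))
      intro j hj
      exact absurd hj (Nat.not_lt_zero _)
    | succ r ih =>
      intro hr
      obtain ⟨i, hi⟩ : ∃ i : Fin g, i.val = r := ⟨⟨r, hr⟩, rfl⟩
      obtain ⟨L, hLd⟩ : ∃ L, L = clo (Subfield.closure ((C i : Set E) ∪ {t i})) := ⟨_, rfl⟩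
      have h1 := descent (fun l : {j : Fin g // j.val < r} => D l.1) (Kr r) L (by
          intro x
          rw [hKr]
          exact ⟨fun h l => h l.1 l.2, fun h j hj => h ⟨j, hj⟩⟩)
        (fun l x hx => by
          rw [hLd] at hx ⊢
          exact hLst i l.1 x hx) (T r) (by
          intro x hx
          obtain ⟨j, hj, rfl⟩ := (hT r x).1 hx
          rw [SetLike.mem_coe, hLd]
          refine le_clo _ (Subfield.subset_closure (Or.inl ((hC i _).2 ?_)))
          rw [ht, if_neg]
          rintro rfl
          omega) (y := y) (by rw [hLd]; exact hL i) (ih (by omega))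
      refine clo_le (A := Subfield.closure ((Kr (r + 1) : Set E) ∪ T (r + 1))) ?_ h1
      rw [Subfield.closure_le]
      rintro x (hx | hx)
      · have hx1 : x ∈ Kr r := hx.1
        have hx2 : x ∈ L := hx.2
        rw [hLd] at hx2
        have h2 := descent (fun _ : Unit => D i) (C i) (Kr r) (by
            intro z
            rw [hC]
            exact ⟨fun h _ => h, fun h => h ()⟩)
          (fun _ z hz => by
            rw [hKr] at hz ⊢
            intro j hj
            rw [hcomm, hz j hj, map_zero]) {t i} (by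
            intro z hz
            rw [Set.mem_singleton_iff.1 hz, SetLike.mem_coe, hKr]
            intro j hj
            rw [ht, if_neg]
            rintro rfl
            omega) (y := x) hx1 hx2
        refine clo_mono ?_ h2
        apply Subfield.closure_mono
        rintro z (hz | hz)
        · left
          rw [SetLike.mem_coe, hKr]
          intro j hj
          rcases Nat.lt_succ_iff_lt_or_eq.1 hj with h3 | h3
          · exact (hKr r z).1 hz.2 j h3
          · have h4 : j = i := Fin.ext (by rw [h3, hi])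
            rw [h4]
            exact (hC i z).1 hz.1
        · right
          rw [hT]
          exact ⟨i, by omega, Set.mem_singleton_iff.1 hz⟩
      · obtain ⟨j, hj, rfl⟩ := (hT r x).1 hx
        exact le_clo _ (Subfield.subset_closure (Or.inr ((hT (r + 1) _).2 ⟨j, by omega, rfl⟩)))
  obtain ⟨p, hp, hc, hx⟩ := mem_clo_iff.1 (key g le_rfl)
  refine isAlg_of_poly p hp (fun n => ?_) hx
  have h1 : Subfield.closure ((Kr g : Set E) ∪ T g) ≤
      (IntermediateField.adjoin K (Set.range t)).toSubfield := by
    rw [Subfield.closure_le]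
    rintro x (hx | hx)
    · obtain ⟨c, rfl⟩ := hK x fun i => (hKr g x).1 hx i i.2
      exact (IntermediateField.adjoin K (Set.range t)).algebraMap_mem c
    · obtain ⟨j, -, rfl⟩ := (hT g x).1 hx
      exact IntermediateField.subset_adjoin K _ ⟨j, rfl⟩
  exact ⟨⟨p.coeff n, h1 (hc n)⟩, rfl⟩

end Pool.Agent.H436.DT.SA
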