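import Mathlib

/-!
The field of rational functions in infinitely many variables with a derivation (posted subtasks of
helper436; MP_e120ef_ag).
-/

set_option autoImplicit false

namespace Pool.Agent.H436.DT

open MvPolynomial

/-- M1. The derivation `δ` of `E(u_0, u_1, …)` with `δ u_k = u_(k+1)` and
`δ e = ∑ u_0^i D_i e` for `e` in `E`. -/
theorem exists_der {K E : Type} [Field K] [Field E] [Algebra K E] {g : ℕ}
    (D : Fin g → Derivation K E E) :
    ∃ δ : Derivation K (FractionRing (MvPolynomial ℕ E)) (FractionRing (MvPolynomial ℕ E)),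
      (∀ e : E, δ (algebraMap (MvPolynomial ℕ E) _ (C e)) =
        ∑ i : Fin g, algebraMap (MvPolynomial ℕ E) _ (X 0 ^ (i : ℕ) * C (D i e))) ∧
      ∀ k, δ (algebraMap (MvPolynomial ℕ E) _ (X k)) = algebraMap (MvPolynomial ℕ E) _ (X (k + 1)) := by
  let ι : MvPolynomial ℕ E →+* FractionRing (MvPolynomial ℕ E) := algebraMap _ _
  let s : E → FractionRing (MvPolynomial ℕ E) := fun e =>
    ∑ i : Fin g, ι (X 0 ^ (i : ℕ) * C (D i e))
  have s_add : ∀ a b, s (a + b) = s a + s b := by
    intro a b
    simp only [s, map_add, mul_add, Finset.sum_add_distrib]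
  have s_mul : ∀ a b, s (a * b) = ι (C a) * s b + ι (C b) * s a := by
    intro a b
    simp only [s, Finset.mul_sum, ← Finset.sum_add_distrib]
    apply Finset.sum_congr rfl
    intro i _
    rw [Derivation.leibniz, smul_eq_mul, smul_eq_mul]
    simp only [map_add, map_mul, mul_add]
    ring
  have s_map : ∀ c : K, s (algebraMap K E c) = 0 := by
    intro c
    simp only [s, Derivation.map_algebraMap, map_zero, mul_zero, Finset.sum_const_zero]
  have s_one : s 1 = 0 := by
    have := s_map 1
    rwa [map_one] at this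
  have s_zero : s 0 = 0 := by
    have := s_map 0
    rwa [map_zero] at this
  let ρ : E →+* TrivSqZeroExt (FractionRing (MvPolynomial ℕ E))
      (FractionRing (MvPolynomial ℕ E)) :=
    { toFun := fun e => TrivSqZeroExt.inl (ι (C e)) + TrivSqZeroExt.inr (s e)
      map_one' := by
        rw [s_one]
        apply TrivSqZeroExt.ext <;> simp
      map_mul' := fun a b => by
        rw [s_mul]
        apply TrivSqZeroExt.ext
        · simp
        · simp only [TrivSqZeroExt.snd_mul, TrivSqZeroExt.fst_add, TrivSqZeroExt.fst_inl,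
            TrivSqZeroExt.fst_inr, TrivSqZeroExt.snd_add, TrivSqZeroExt.snd_inl,
            TrivSqZeroExt.snd_inr, add_zero, zero_add, smul_eq_mul, op_smul_eq_smul]
      map_zero' := by
        rw [s_zero]
        apply TrivSqZeroExt.ext <;> simp
      map_add' := fun a b => by
        rw [s_add]
        apply TrivSqZeroExt.ext <;> simp }
  let θ : MvPolynomial ℕ E →+* TrivSqZeroExt (FractionRing (MvPolynomial ℕ E))
      (FractionRing (MvPolynomial ℕ E)) :=
    eval₂Hom ρ (fun k => TrivSqZeroExt.inl (ι (X k)) + TrivSqZeroExt.inr (ι (X (k + 1))))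
  have hθC : ∀ e : E, θ (C e) = ρ e := fun e => by simp [θ]
  have hθX : ∀ k : ℕ, θ (X k) =
      TrivSqZeroExt.inl (ι (X k)) + TrivSqZeroExt.inr (ι (X (k + 1))) := fun k => by simp [θ]
  have hθfst : ∀ a, (θ a).fst = ι a := by
    intro a
    have h1 : ((TrivSqZeroExt.fstHom (FractionRing (MvPolynomial ℕ E))
        (FractionRing (MvPolynomial ℕ E)) (FractionRing (MvPolynomial ℕ E))).toRingHom.comp θ) =
        ι := by
      apply MvPolynomial.ringHom_ext
      · intro e
        change (θ (C e)).fst = ι (C e)
        rw [hθC]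
        change (TrivSqZeroExt.inl (ι (C e)) + TrivSqZeroExt.inr (s e) :
          TrivSqZeroExt (FractionRing (MvPolynomial ℕ E)) (FractionRing (MvPolynomial ℕ E))).fst = _
        simp
      · intro k
        change (θ (X k)).fst = ι (X k)
        rw [hθX]
        simp
    exact congrArg (fun f : MvPolynomial ℕ E →+* FractionRing (MvPolynomial ℕ E) => f a) h1
  have hunit : ∀ y : nonZeroDivisors (MvPolynomial ℕ E), IsUnit (θ y) := by
    intro y
    rw [TrivSqZeroExt.isUnit_iff_isUnit_fst, hθfst]
    exact IsLocalization.map_units (FractionRing (MvPolynomial ℕ E)) y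
  let Φ : FractionRing (MvPolynomial ℕ E) →+* TrivSqZeroExt (FractionRing (MvPolynomial ℕ E))
      (FractionRing (MvPolynomial ℕ E)) := IsLocalization.lift hunit
  have hΦ : ∀ a : MvPolynomial ℕ E, Φ (algebraMap _ _ a) = θ a := fun a =>
    IsLocalization.lift_eq hunit a
  have hfst : ∀ x, (Φ x).fst = x := by
    intro x
    have h1 : ((TrivSqZeroExt.fstHom (FractionRing (MvPolynomial ℕ E))
        (FractionRing (MvPolynomial ℕ E)) (FractionRing (MvPolynomial ℕ E))).toRingHom.comp Φ) =
        RingHom.id _ := by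
      apply IsLocalization.ringHom_ext (nonZeroDivisors (MvPolynomial ℕ E))
      apply RingHom.ext
      intro a
      change (Φ (algebraMap _ _ a)).fst = algebraMap _ _ a
      rw [hΦ, hθfst]
    exact congrArg (fun f : FractionRing (MvPolynomial ℕ E) →+*
      FractionRing (MvPolynomial ℕ E) => f x) h1
  have hΦK : ∀ c : K, (Φ (algebraMap K (FractionRing (MvPolynomial ℕ E)) c)).snd = 0 := by
    intro c
    have h1 : algebraMap K (FractionRing (MvPolynomial ℕ E)) c =
        algebraMap (MvPolynomial ℕ E) (FractionRing (MvPolynomial ℕ E))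
          (C (algebraMap K E c)) := by
      rw [IsScalarTower.algebraMap_apply K (MvPolynomial ℕ E) (FractionRing (MvPolynomial ℕ E))]
      rfl
    rw [h1, hΦ, hθC]
    change (TrivSqZeroExt.inl (ι (C (algebraMap K E c))) +
      TrivSqZeroExt.inr (s (algebraMap K E c)) :
      TrivSqZeroExt (FractionRing (MvPolynomial ℕ E)) (FractionRing (MvPolynomial ℕ E))).snd = _
    rw [s_map]
    simp
  refine ⟨Derivation.mk' { toFun := fun x => (Φ x).snd
                           map_add' := fun x y => by rw [map_add, TrivSqZeroExt.snd_add]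
                           map_smul' := fun c x => ?_ } fun x y => ?_, ?_, ?_⟩
  · rw [Algebra.smul_def, map_mul, TrivSqZeroExt.snd_mul, hfst, hfst, hΦK, smul_zero, add_zero,
      RingHom.id_apply, smul_eq_mul, Algebra.smul_def c]
  · change (Φ (x * y)).snd = x • (Φ y).snd + y • (Φ x).snd
    rw [map_mul, TrivSqZeroExt.snd_mul, hfst, hfst]
    simp [mul_comm]
  · intro e
    change (Φ (algebraMap _ _ (C e))).snd = _
    rw [hΦ, hθC]
    change (TrivSqZeroExt.inl (ι (C e)) + TrivSqZeroExt.inr (s e) :
      TrivSqZeroExt (FractionRing (MvPolynomial ℕ E)) (FractionRing (MvPolynomial ℕ E))).snd = _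
    rw [TrivSqZeroExt.snd_add, TrivSqZeroExt.snd_inl, TrivSqZeroExt.snd_inr, zero_add]
  · intro k
    change (Φ (algebraMap _ _ (X k))).snd = _
    rw [hΦ, hθX, TrivSqZeroExt.snd_add, TrivSqZeroExt.snd_inl, TrivSqZeroExt.snd_inr, zero_add]

end Pool.Agent.H436.DT
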