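import Mathlib

/-!
The field of rational functions in infinitely many variables with a derivation: M2 (helper791 for
helper436; MP_e120ef_ag).
-/

set_option autoImplicit false

namespace Pool.Agent.H436.DT

open MvPolynomial

/-- A polynomial dividing its derivative with respect to `X r` does not contain `X r`. -/
theorem m2_deg {E : Type} [Field E] [CharZero E] (r : ℕ) (Q : MvPolynomial ℕ E)
    (h : Q ∣ pderiv r Q) : r ∉ Q.vars := by
  intro hr
  have hQ : Q ≠ 0 := by
    rintro rfl
    simp at hr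
  have hr2 := mem_vars_iff_degreeOf_ne_zero.1 hr
  have h0 : pderiv r Q = 0 := by
    by_contra hne
    obtain ⟨S, hS⟩ := h
    have hS0 : S ≠ 0 := by
      rintro rfl
      apply hne
      rw [hS, mul_zero]
    have h1 : degreeOf r (pderiv r Q) < degreeOf r Q := by
      rw [degreeOf_lt_iff (Nat.pos_of_ne_zero hr2)]
      intro m hm
      rw [mem_support_iff, coeff_pderiv] at hm
      have h2 : m + Finsupp.single r 1 ∈ Q.support := by
        rw [mem_support_iff]
        exact left_ne_zero_of_mul hm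
      have h3 := monomial_le_degreeOf r h2
      rw [Finsupp.add_apply, Finsupp.single_eq_same] at h3
      omega
    rw [hS, degreeOf_mul_eq hQ hS0] at h1
    omega
  obtain ⟨m, hm, hmr⟩ := (mem_vars_iff_mem_support r).1 hr
  have h2 : coeff (m - Finsupp.single r 1) (pderiv r Q) = 0 := by
    rw [h0, coeff_zero]
  rw [coeff_pderiv] at h2
  have hmr' : m r ≠ 0 := Finsupp.mem_support_iff.1 hmr
  have h3 : m - Finsupp.single r 1 + Finsupp.single r 1 = m :=
    tsub_add_cancel_of_le (Finsupp.single_le_iff.2 (Nat.one_le_iff_ne_zero.2 hmr'))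
  rw [h3] at h2
  rcases mul_eq_zero.1 h2 with h | h
  · exact (mem_support_iff.1 hm) h
  · exact (Nat.cast_add_one_ne_zero (R := E) _) h

theorem m2_const {E : Type} [Field E] [CharZero E] (d : MvPolynomial ℕ E → MvPolynomial ℕ E)
    (h0 : d 0 = 0)
    (hcomm : ∀ (r : ℕ) (A : MvPolynomial ℕ E),
      pderiv (r + 1) (d A) - d (pderiv (r + 1) A) = pderiv r A)
    (Q : MvPolynomial ℕ E) (h : Q ∣ d Q) : ∃ e, Q = C e := by
  have hv : Q.vars = ∅ := by
    by_contra hne
    obtain ⟨r, hr, hmax⟩ := Q.vars.exists_max_image id (Finset.nonempty_of_ne_empty hne)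
    have hr1 : r + 1 ∉ Q.vars := by
      intro hh
      have h5 := hmax _ hh
      simp only [id] at h5
      omega
    have h1 : pderiv (r + 1) Q = 0 := pderiv_eq_zero_of_notMem_vars hr1
    obtain ⟨S, hS⟩ := h
    have h2 := hcomm r Q
    rw [h1, h0, sub_zero, hS, pderiv_mul, h1, zero_mul, zero_add] at h2
    exact m2_deg r Q ⟨_, h2.symm⟩ hr
  refine ⟨coeff 0 Q, ?_⟩
  ext m
  rw [coeff_C]
  by_cases hm : 0 = m
  · rw [if_pos hm, hm]
  · rw [if_neg hm]
    by_contra hc
    have hms : m ∈ Q.support := mem_support_iff.2 hc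
    apply hm
    ext v
    rw [mem_support_notMem_vars_zero hms (v := v) (by rw [hv]; simp)]
    rfl

/-- M2. The constants of `δ` are the joint constants of the `D_i`. -/
theorem const_der {K E : Type} [Field K] [Field E] [CharZero E] [Algebra K E] {g : ℕ}
    (D : Fin g → Derivation K E E)
    (δ : Derivation K (FractionRing (MvPolynomial ℕ E)) (FractionRing (MvPolynomial ℕ E)))
    (h1 : ∀ e : E, δ (algebraMap (MvPolynomial ℕ E) _ (C e)) =
        ∑ i : Fin g, algebraMap (MvPolynomial ℕ E) _ (X 0 ^ (i : ℕ) * C (D i e)))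
    (h2 : ∀ k, δ (algebraMap (MvPolynomial ℕ E) _ (X k)) =
      algebraMap (MvPolynomial ℕ E) _ (X (k + 1)))
    (f : FractionRing (MvPolynomial ℕ E)) (hf : δ f = 0) :
    ∃ e : E, f = algebraMap (MvPolynomial ℕ E) _ (C e) ∧ ∀ i, D i e = 0 := by
  classical
  have hex : ∀ P : MvPolynomial ℕ E, ∃ Q : MvPolynomial ℕ E,
      δ (algebraMap _ _ P) =
        algebraMap (MvPolynomial ℕ E) (FractionRing (MvPolynomial ℕ E)) Q := by
    intro P
    induction P using MvPolynomial.induction_on with
    | C e => exact ⟨∑ i : Fin g, X 0 ^ (i : ℕ) * C (D i e), by rw [h1, map_sum]⟩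
    | add p q hp hq =>
      obtain ⟨a, ha⟩ := hp
      obtain ⟨b, hb⟩ := hq
      exact ⟨a + b, by rw [map_add, map_add, ha, hb, map_add]⟩
    | mul_X p n hp =>
      obtain ⟨a, ha⟩ := hp
      refine ⟨p * X (n + 1) + X n * a, ?_⟩
      rw [map_mul, Derivation.leibniz, h2, ha, smul_eq_mul, smul_eq_mul, map_add, map_mul, map_mul]
  choose d hd using hex
  have hinj := IsFractionRing.injective (MvPolynomial ℕ E) (FractionRing (MvPolynomial ℕ E))
  have dadd : ∀ P Q, d (P + Q) = d P + d Q := fun P Q =>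
    hinj (by rw [← hd, map_add, map_add, hd, hd, map_add])
  have dmul : ∀ P Q, d (P * Q) = P * d Q + Q * d P := fun P Q =>
    hinj (by rw [← hd, map_mul, Derivation.leibniz, hd, hd, smul_eq_mul, smul_eq_mul, map_add,
      map_mul, map_mul])
  have dC : ∀ e, d (C e) = ∑ i : Fin g, X 0 ^ (i : ℕ) * C (D i e) := fun e =>
    hinj (by rw [← hd, h1, map_sum])
  have dX : ∀ k, d (X k) = X (k + 1) := fun k => hinj (by rw [← hd, h2])
  have d0 : d 0 = 0 := hinj (by rw [← hd, map_zero, map_zero])
  have hcomm : ∀ (r : ℕ) (A : MvPolynomial ℕ E),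
      pderiv (r + 1) (d A) - d (pderiv (r + 1) A) = pderiv r A := by
    intro r A
    have d1 : d 1 = 0 := by
      have := dmul 1 1
      rw [mul_one, one_mul] at this
      exact left_eq_add.1 this
    have hXk : ∀ k, pderiv (r + 1) (d (X k)) - d (pderiv (r + 1) (X k)) =
        pderiv r (X k : MvPolynomial ℕ E) := by
      intro k
      rw [dX]
      by_cases hk : k = r
      · subst hk
        rw [pderiv_X_self, pderiv_X_self, pderiv_X_of_ne (by omega), d0, sub_zero]
      · rw [pderiv_X_of_ne (by omega : k + 1 ≠ r + 1), pderiv_X_of_ne hk]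
        by_cases hk' : k = r + 1
        · rw [hk', pderiv_X_self, d1, sub_zero]
        · rw [pderiv_X_of_ne hk', d0, sub_zero]
    induction A using MvPolynomial.induction_on with
    | C e =>
      rw [dC, pderiv_C, pderiv_C, d0, sub_zero, map_sum]
      apply Finset.sum_eq_zero
      intro i _
      rw [pderiv_mul, pderiv_C, mul_zero, add_zero, pderiv_pow,
        pderiv_X_of_ne (by omega : 0 ≠ r + 1), mul_zero, zero_mul]
    | add p q hp hq =>
      rw [dadd, map_add, map_add, dadd, map_add, ← hp, ← hq]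
      ring
    | mul_X p n hp =>
      have hX := hXk n
      rw [dmul, map_add, pderiv_mul, pderiv_mul, pderiv_mul, dadd, dmul, dmul, pderiv_mul,
        ← hp, ← hX]
      ring
  obtain ⟨P, Q, hrel, hmk⟩ := IsFractionRing.exists_reduced_fraction (MvPolynomial ℕ E) f
  have hQ0 : (Q : MvPolynomial ℕ E) ≠ 0 := nonZeroDivisors.ne_zero Q.2
  have hfQ : f * algebraMap (MvPolynomial ℕ E) _ (Q : MvPolynomial ℕ E) = algebraMap _ _ P := by
    rw [← hmk]
    exact IsLocalization.mk'_spec _ P Q
  have hfd : f * algebraMap (MvPolynomial ℕ E) _ (d Q) = algebraMap _ _ (d P) := by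
    rw [← hd, ← hd, ← hfQ, Derivation.leibniz, hf, smul_zero, add_zero, smul_eq_mul]
  have hcross : (Q : MvPolynomial ℕ E) * d P = P * d Q := by
    apply hinj
    rw [map_mul, map_mul, ← hfQ, ← hfd]
    ring
  have hPQ : (Q : MvPolynomial ℕ E) ∣ d Q :=
    hrel.symm.dvd_of_dvd_mul_left ⟨d P, hcross.symm⟩
  have hPP : P ∣ d P := hrel.dvd_of_dvd_mul_left ⟨d Q, hcross⟩
  obtain ⟨p, hp⟩ := m2_const d d0 hcomm P hPP
  obtain ⟨q, hq⟩ := m2_const d d0 hcomm Q hPQ
  have hq0 : q ≠ 0 := by
    rintro rfl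
    apply hQ0
    rw [hq, C_0]
  have hfe : f = algebraMap (MvPolynomial ℕ E) _ (C (p / q)) := by
    have h5 : algebraMap (MvPolynomial ℕ E) (FractionRing (MvPolynomial ℕ E)) (C q) ≠ 0 := by
      rw [Ne, map_eq_zero_iff _ hinj]
      rw [hq] at hQ0
      exact hQ0
    apply mul_right_cancel₀ h5
    rw [← map_mul, ← C_mul, div_mul_cancel₀ p hq0, ← hp, ← hq, hfQ]
  refine ⟨p / q, hfe, ?_⟩
  have hz : ∑ i : Fin g, X 0 ^ (i : ℕ) * C (D i (p / q)) = (0 : MvPolynomial ℕ E) := by
    rw [← dC]
    apply hinj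
    rw [← hd, ← hfe, hf, map_zero]
  intro j
  have hco := congrArg (coeff (Finsupp.single 0 (j : ℕ))) hz
  rw [coeff_sum, coeff_zero, Finset.sum_eq_single j] at hco
  · rw [mul_comm, coeff_C_mul, coeff_X_pow, if_pos rfl, mul_one] at hco
    exact hco
  · intro i _ hij
    rw [mul_comm, coeff_C_mul, coeff_X_pow, if_neg, mul_zero]
    intro hh
    apply hij
    have := Finsupp.single_injective 0 hh
    exact Fin.ext this
  · intro h
    exact absurd (Finset.mem_univ j) h

end Pool.Agent.H436.DT
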