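import Pool.Agent.H436.DT.Defs
import Pool.Agent.H436.DT.M1
import Pool.Agent.H436.DT.M2

/-!
Several derivations: rational functions in generic velocities.
-/

set_option autoImplicit false

namespace Pool.Agent.H436.DT

open MvPolynomial

variable {K E : Type} [Field K] [Field E] [Algebra K E]

/-- The elements of `E` given by iterated linear differential equations over `F` with respect to the
derivations `D_1, …, D_g`: the smallest subset of `E` which contains `F` and is closed under sums,
products and solutions `y` in `E` of systems `D_i y = A_i y`, `i = 1, …, g`, with coefficients in the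
set. -/
inductive IterL {g : ℕ} (D : Fin g → Derivation K E E) (F : IntermediateField K E) : E → Prop
  | base {b : E} : b ∈ F → IterL D F b
  | add {x y : E} : IterL D F x → IterL D F y → IterL D F (x + y)
  | mul {x y : E} : IterL D F x → IterL D F y → IterL D F (x * y)
  | ode {m : ℕ} (A : Fin g → Fin m → Fin m → E) (y : Fin m → E) :
      (∀ i j k, IterL D F (A i j k)) → (∀ i j, D i (y j) = ∑ k, A i j k * y k) →
        ∀ j, IterL D F (y j)

/-- `F` is a subfield of `E` which is closed under the derivations `D_i` and contains their joint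
constants. -/
structure DField {g : ℕ} (D : Fin g → Derivation K E E) (F : IntermediateField K E) : Prop where
  der : ∀ i, ∀ x ∈ F, D i x ∈ F
  const : ∀ x, (∀ i, D i x = 0) → x ∈ F

/-- the rational functions in infinitely many variables -/
abbrev VF (E : Type) [Field E] : Type := FractionRing (MvPolynomial ℕ E)

/-- the inclusion -/
noncomputable def io (K E : Type) [Field K] [Field E] [Algebra K E] : E →ₐ[K] VF E :=
  (IsScalarTower.toAlgHom K (MvPolynomial ℕ E) (VF E)).comp (IsScalarTower.toAlgHom K E _)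

theorem io_apply (e : E) : io K E e = algebraMap (MvPolynomial ℕ E) (VF E) (C e) := rfl

/-- the polynomials with coefficients in `F` -/
noncomputable def th (F : IntermediateField K E) : MvPolynomial ℕ F →+* VF E :=
  (algebraMap (MvPolynomial ℕ E) (VF E)).comp (map (algebraMap F E))

theorem th_inj (F : IntermediateField K E) : Function.Injective (th F) :=
  (IsFractionRing.injective (MvPolynomial ℕ E) (VF E)).comp
    (map_injective _ (algebraMap F E).injective)

theorem th_ne {F : IntermediateField K E} {q : MvPolynomial ℕ F} (hq : q ≠ 0) : th F q ≠ 0 := by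
  rw [Ne, map_eq_zero_iff _ (th_inj F)]
  exact hq

/-- the rational functions with coefficients in `F` -/
noncomputable def vb (F : IntermediateField K E) : IntermediateField K (VF E) where
  carrier := {x | ∃ p q : MvPolynomial ℕ F, q ≠ 0 ∧ x * th F q = th F p}
  mul_mem' := by
    rintro x x' ⟨p, q, hq, h⟩ ⟨p', q', hq', h'⟩
    refine ⟨p * p', q * q', mul_ne_zero hq hq', ?_⟩
    rw [map_mul, map_mul, ← h, ← h']
    ring
  add_mem' := by
    rintro x x' ⟨p, q, hq, h⟩ ⟨p', q', hq', h'⟩
    refine ⟨p * q' + p' * q, q * q', mul_ne_zero hq hq', ?_⟩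
    rw [map_mul, map_add, map_mul, map_mul, ← h, ← h']
    ring
  algebraMap_mem' := fun c => by
    refine ⟨C (algebraMap K F c), 1, one_ne_zero, ?_⟩
    rw [map_one, mul_one]
    change _ = algebraMap (MvPolynomial ℕ E) (VF E) (map (algebraMap F E) (C (algebraMap K F c)))
    rw [map_C, ← IsScalarTower.algebraMap_apply K F E,
      IsScalarTower.algebraMap_apply K (MvPolynomial ℕ E) (VF E)]
    rfl
  inv_mem' := by
    rintro x ⟨p, q, hq, h⟩
    by_cases hx : x = 0
    · refine ⟨0, 1, one_ne_zero, ?_⟩
      rw [hx, inv_zero, zero_mul, map_zero]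
    · refine ⟨q, p, fun h0 => ?_, ?_⟩
      · rw [h0, map_zero] at h
        exact mul_ne_zero hx (th_ne hq) h
      · rw [← h, ← mul_assoc, inv_mul_cancel₀ hx, one_mul]

theorem mem_vb {F : IntermediateField K E} {x : VF E} :
    x ∈ vb F ↔ ∃ p q : MvPolynomial ℕ F, q ≠ 0 ∧ x * th F q = th F p := Iff.rfl

theorem th_mem (F : IntermediateField K E) (p : MvPolynomial ℕ F) : th F p ∈ vb F :=
  ⟨p, 1, one_ne_zero, by rw [map_one, mul_one]⟩

theorem io_mem {F : IntermediateField K E} {b : E} (hb : b ∈ F) : io K E b ∈ vb F := by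
  have h1 := th_mem F (C ⟨b, hb⟩)
  have h2 : th F (C ⟨b, hb⟩) = io K E b := by
    change algebraMap (MvPolynomial ℕ E) (VF E) (map (algebraMap F E) (C ⟨b, hb⟩)) = _
    rw [map_C]
    rfl
  rwa [h2] at h1

theorem var_mem (F : IntermediateField K E) (k : ℕ) :
    algebraMap (MvPolynomial ℕ E) (VF E) (X k) ∈ vb F := by
  have h1 := th_mem F (X k)
  have h2 : th F (X k) = algebraMap (MvPolynomial ℕ E) (VF E) (X k) := by
    change algebraMap (MvPolynomial ℕ E) (VF E) (map (algebraMap F E) (X k)) = _
    rw [map_X]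
  rwa [h2] at h1

section der

variable {g : ℕ} {D : Fin g → Derivation K E E} {δ : Derivation K (VF E) (VF E)}
  (h1 : ∀ e : E, δ (algebraMap (MvPolynomial ℕ E) _ (C e)) =
    ∑ i : Fin g, algebraMap (MvPolynomial ℕ E) _ (X 0 ^ (i : ℕ) * C (D i e)))
  (h2 : ∀ k, δ (algebraMap (MvPolynomial ℕ E) _ (X k)) =
    algebraMap (MvPolynomial ℕ E) _ (X (k + 1)))
include h1 h2

theorem th_der {F : IntermediateField K E} (hF : ∀ i, ∀ x ∈ F, D i x ∈ F) (p : MvPolynomial ℕ F) :
    ∃ p' : MvPolynomial ℕ F, δ (th F p) = th F p' := by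
  induction p using MvPolynomial.induction_on with
  | C a =>
    refine ⟨∑ i : Fin g, X 0 ^ (i : ℕ) * C ⟨D i a, hF i a a.2⟩, ?_⟩
    have h3 : th F (C a) = algebraMap (MvPolynomial ℕ E) _ (C (a : E)) := by
      change algebraMap (MvPolynomial ℕ E) (VF E) (map (algebraMap F E) (C a)) = _
      rw [map_C]
      rfl
    rw [h3, h1, map_sum]
    refine Finset.sum_congr rfl fun i _ => ?_
    change _ = algebraMap (MvPolynomial ℕ E) (VF E) (map (algebraMap F E) _)
    rw [map_mul (MvPolynomial.map (algebraMap F E)), map_pow, map_X, map_C]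
    rfl
  | add p q hp hq =>
    obtain ⟨p', hp'⟩ := hp
    obtain ⟨q', hq'⟩ := hq
    exact ⟨p' + q', by rw [map_add, map_add, map_add, hp', hq']⟩
  | mul_X p k hp =>
    obtain ⟨p', hp'⟩ := hp
    refine ⟨p * X (k + 1) + X k * p', ?_⟩
    have h3 : ∀ k, th F (X k) = algebraMap (MvPolynomial ℕ E) _ (X k) := by
      intro k
      change algebraMap (MvPolynomial ℕ E) (VF E) (map (algebraMap F E) (X k)) = _
      rw [map_X]
    rw [map_mul, δ.leibniz, smul_eq_mul, smul_eq_mul, hp', map_add, map_mul, map_mul, h3, h3, h2]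

theorem vb_base {F : IntermediateField K E} (hcz : CharZero E) (hF : DField D F) :
    DBase δ (vb F) := by
  constructor
  · rintro x ⟨p, q, hq, h⟩
    obtain ⟨p', hp'⟩ := th_der h1 h2 hF.der p
    obtain ⟨q', hq'⟩ := th_der h1 h2 hF.der q
    refine ⟨p' * q - p * q', q * q, mul_ne_zero hq hq, ?_⟩
    have h3 := congrArg δ h
    rw [δ.leibniz, smul_eq_mul, smul_eq_mul, hp', hq'] at h3
    rw [map_mul, map_sub, map_mul, map_mul, ← h3, ← h]
    ring
  · intro x hx
    obtain ⟨e, rfl, he⟩ := const_der D δ h1 h2 x hx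
    exact io_mem (hF.const e he)

theorem iter_vel {F : IntermediateField K E} {y : E} (hy : IterL D F y) :
    Iter δ (vb F) (io K E y) := by
  induction hy with
  | base hb => exact Iter.base (io_mem hb)
  | add _ _ ih1 ih2 =>
    rw [map_add]
    exact ih1.add ih2
  | mul _ _ ih1 ih2 =>
    rw [map_mul]
    exact ih1.mul ih2
  | @ode m A y _ hy j ih =>
    refine Iter.ode (fun j k => ∑ i : Fin g,
      algebraMap (MvPolynomial ℕ E) (VF E) (X 0) ^ (i : ℕ) * io K E (A i j k))
      (fun j => io K E (y j)) (fun j k => ?_) (fun j => ?_) j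
    · exact Iter.sum _ fun i _ => ((Iter.base (var_mem F 0)).pow _).mul (ih i j k)
    · rw [io_apply, h1]
      simp only [Finset.sum_mul]
      rw [Finset.sum_comm]
      refine Finset.sum_congr rfl fun i _ => ?_
      rw [hy i j, map_mul, map_pow]
      have h3 : algebraMap (MvPolynomial ℕ E) (VF E) (C (∑ k, A i j k * y k)) =
          ∑ k, io K E (A i j k) * io K E (y k) := by
        rw [← io_apply (K := K), map_sum]
        simp only [map_mul]
      rw [h3, Finset.mul_sum]
      refine Finset.sum_congr rfl fun k _ => ?_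
      ring

end der

/-- descent of algebraic elements -/
theorem alg_vel {F : IntermediateField K E} {y : E} (hy : IsAlgebraic (vb F) (io K E y)) :
    IsAlgebraic F y := by
  classical
  obtain ⟨P, hP0, hP⟩ := hy
  have h1 : ∀ k, ∃ p q : MvPolynomial ℕ F, q ≠ 0 ∧ (P.coeff k : VF E) * th F q = th F p := fun k =>
    (P.coeff k).2
  choose p q hq hpq using h1
  let m := P.natDegree
  let R : MvPolynomial ℕ F := ∏ k ∈ Finset.range (m + 1), q k
  have hR0 : R ≠ 0 := Finset.prod_ne_zero_iff.2 fun k _ => hq k
  have h2 : ∀ k ∈ Finset.range (m + 1), ∃ r : MvPolynomial ℕ F,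
      (P.coeff k : VF E) * th F R = th F r := by
    intro k hk
    have h3 : R = (∏ j ∈ (Finset.range (m + 1)).erase k, q j) * q k :=
      (Finset.prod_erase_mul _ _ hk).symm
    refine ⟨(∏ j ∈ (Finset.range (m + 1)).erase k, q j) * p k, ?_⟩
    rw [h3, map_mul, map_mul, ← hpq]
    ring
  choose! r hr using h2
  have hsum : ∑ k ∈ Finset.range (m + 1), map (algebraMap F E) (r k) * C y ^ k = 0 := by
    apply IsFractionRing.injective (MvPolynomial ℕ E) (VF E)
    rw [map_zero, map_sum]
    have h3 : ∀ k ∈ Finset.range (m + 1), algebraMap (MvPolynomial ℕ E) (VF E)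
        (map (algebraMap F E) (r k) * C y ^ k) =
          th F R * ((P.coeff k : VF E) * (io K E y) ^ k) := by
      intro k hk
      rw [map_mul, map_pow]
      have h4 : algebraMap (MvPolynomial ℕ E) (VF E) (map (algebraMap F E) (r k)) =
          (P.coeff k : VF E) * th F R := (hr k hk).symm
      rw [h4, io_apply]
      ring
    rw [Finset.sum_congr rfl h3, ← Finset.mul_sum]
    have h4 : ∑ k ∈ Finset.range (m + 1), (P.coeff k : VF E) * (io K E y) ^ k =
        Polynomial.aeval (io K E y) P := by
      rw [Polynomial.aeval_eq_sum_range]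
      refine Finset.sum_congr rfl fun k _ => ?_
      rw [Algebra.smul_def]
      rfl
    rw [h4, hP, mul_zero]
  have hrm : r m ≠ 0 := by
    intro h0
    have h3 := hr m (Finset.mem_range.2 (Nat.lt_succ_self m))
    rw [h0, map_zero] at h3
    have h4 : (P.coeff m : VF E) ≠ 0 := fun h5 =>
      Polynomial.leadingCoeff_ne_zero.2 hP0 (Subtype.ext h5)
    exact mul_ne_zero h4 (th_ne hR0) h3
  obtain ⟨μ, hμ⟩ := MvPolynomial.ne_zero_iff.1 hrm
  refine ⟨∑ k ∈ Finset.range (m + 1), Polynomial.monomial k (coeff μ (r k)), fun h0 => hμ ?_, ?_⟩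
  · have h3 := congrArg (fun Q => Polynomial.coeff Q m) h0
    simp only [Polynomial.finsetSum_coeff, Polynomial.coeff_monomial, Polynomial.coeff_zero] at h3
    rw [Finset.sum_ite_eq', if_pos (Finset.mem_range.2 (Nat.lt_succ_self m))] at h3
    exact h3
  · have h3 := congrArg (coeff μ) hsum
    rw [coeff_sum, coeff_zero] at h3
    rw [map_sum, ← h3]
    refine Finset.sum_congr rfl fun k _ => ?_
    rw [← C_pow, mul_comm, coeff_C_mul, coeff_map, Polynomial.aeval_monomial]
    ring

end Pool.Agent.H436.DT
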