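import Pool.Agent.H436.DT.Core
import Pool.Agent.H436.DT.Vel
import Pool.Agent.H436.DT.L6
import Pool.Graph.R_pool_sql_team_seeded_2aa45f1a.Results.MP_e120ef_ag.DifferenceFieldImages

/-!
Images of points over differential fields with several derivations.
-/

set_option autoImplicit false

namespace Pool.Agent.H436.DT

open MvPolynomial
open Pool.Agent.Q171.RC (OnRat)
open Pool.Agent.Q309.OFF (OnV OnCurve ImIdeal ptIdeal onCurve_of)
open Pool.Agent.Results.MP_e120ef_ag.DifferenceFieldImages (CoveredIm ConstIm)

/-- **The core, several derivations.** -/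
theorem coreL {K E : Type} [Field K] [CharZero K] [IsAlgClosed K] [Field E] [Algebra K E] {s g : ℕ}
    {D : Fin g → Derivation K E E} {F : IntermediateField K E} (hF : DField D F)
    {z : Fin (s + 1) → E} (hz : ∀ u, IterL D F (z u)) {u v : Fin (s + 1)} (hv : z v ≠ 0)
    (huv : ¬ IsAlgebraic F (z u / z v))
    (S1 : Finset (MvPolynomial (Fin (s + 1)) K)) (hS1 : ∀ F ∈ S1, ∃ e, F.IsHomogeneous e)
    (hS1z : ∀ F ∈ S1, aeval z F = 0) :
    ∃ N, ∀ y : Fin (s + 1) → K, y ≠ 0 →
      (∀ G : MvPolynomial (Fin (s + 1)) K, (∃ e, G.IsHomogeneous e) → aeval z G = 0 →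
        eval y G = 0) → OnRat (S1 : Set (MvPolynomial (Fin (s + 1)) K)) N y := by
  have hcE : CharZero E := charZero_of_injective_algebraMap (algebraMap K E).injective
  obtain ⟨δ, h1, h2⟩ := exists_der D
  have hev : ∀ G : MvPolynomial (Fin (s + 1)) K, aeval (fun u => io K E (z u)) G =
      io K E (aeval z G) := fun G => (MvPolynomial.comp_aeval_apply (f := z) (io K E) G).symm
  obtain ⟨N, hN⟩ := core (E := VF E) (vb_base h1 h2 hcE hF) (z := fun u => io K E (z u))
    (fun u => iter_vel h1 h2 (hz u)) (u := u) (v := v) ((map_ne_zero (io K E)).2 hv) (fun h0 => huv (alg_vel (by rw [map_div₀]; exact h0))) S1 hS1 (fun G hG => by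
      rw [hev, hS1z G hG, map_zero])
  refine ⟨N, fun y hy0 hy => hN y hy0 fun G hG hGz => hy G hG ?_⟩
  rw [hev] at hGz
  exact (map_eq_zero (io K E)).1 hGz

/-- **Images.** -/
theorem image_alt {K E : Type} [Field K] [CharZero K] [IsAlgClosed K] [Field E] [Algebra K E]
    {n s g : ℕ} {D : Fin g → Derivation K E E} {F : IntermediateField K E} (hF : DField D F)
    {h : Fin (n + 1) → E} (hh : ∀ j, IterL D F (h j))
    (Φ : Fin (s + 1) → MvPolynomial (Fin (n + 1)) K) :
    (∀ u v, IsAlgebraic F (aeval h (Φ u) / aeval h (Φ v))) ∨ CoveredIm h Φ := by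
  classical
  by_cases hall : ∀ u v, IsAlgebraic F (aeval h (Φ u) / aeval h (Φ v))
  · exact Or.inl hall
  right
  push Not at hall
  obtain ⟨u, v, huv⟩ := hall
  let z : Fin (s + 1) → E := fun u => aeval h (Φ u)
  have hv : z v ≠ 0 := by
    intro h0
    apply huv
    change IsAlgebraic F (aeval h (Φ u) / z v)
    rw [h0, div_zero]
    exact isAlgebraic_zero
  have hmem : ∀ G : MvPolynomial (Fin (s + 1)) K, aeval Φ G ∈ ptIdeal K h ↔ aeval z G = 0 := by
    intro G
    have h1 : aeval z G = aeval h (aeval Φ G) := by
      rw [MvPolynomial.comp_aeval_apply]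
    rw [h1]
    exact Iff.rfl
  have hzi : ∀ u, IterL D F (z u) := by
    intro u
    change IterL D F (aeval h (Φ u))
    rw [MvPolynomial.aeval_def, MvPolynomial.eval₂_eq]
    have hprod : ∀ (T : Finset (Fin (n + 1))) (e : Fin (n + 1) → ℕ),
        IterL D F (∏ i ∈ T, h i ^ e i) := by
      intro T e
      induction T using Finset.induction_on with
      | empty =>
        rw [Finset.prod_empty]
        exact IterL.base F.one_mem
      | insert a T ha ih =>
        rw [Finset.prod_insert ha]
        refine IterL.mul ?_ ih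
        induction e a with
        | zero =>
          rw [pow_zero]
          exact IterL.base F.one_mem
        | succ k ih2 =>
          rw [pow_succ]
          exact ih2.mul (hh a)
    have hsum : ∀ T : Finset (Fin (n + 1) →₀ ℕ), IterL D F
        (∑ e ∈ T, algebraMap K E (coeff e (Φ u)) * ∏ i ∈ e.support, h i ^ e i) := by
      intro T
      induction T using Finset.induction_on with
      | empty =>
        rw [Finset.sum_empty]
        exact IterL.base F.zero_mem
      | insert a T ha ih =>
        rw [Finset.sum_insert ha]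
        exact ((IterL.base (F.algebraMap_mem _)).mul (hprod _ _)).add ih
    exact hsum _
  have hfg : (ImIdeal (ptIdeal K h) Φ).FG := IsNoetherian.noetherian _
  obtain ⟨S1, hS1, hS2⟩ := (Submodule.fg_span_iff_fg_span_finset_subset _).1 hfg
  have hS3 : Ideal.span (S1 : Set (MvPolynomial (Fin (s + 1)) K)) = ImIdeal (ptIdeal K h) Φ :=
    hS2.symm
  obtain ⟨N, hN⟩ := coreL hF hzi hv huv S1 (fun G hG => (hS1 hG).1) fun G hG =>
    (hmem G).1 (hS1 hG).2
  exact ⟨N, fun y hy => onCurve_of hS3.ge (hN y hy.1 fun G hG hGz =>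
    hy.2 G (Ideal.subset_span ⟨hG, (hmem G).2 hGz⟩))⟩

/-- The algebraic closure in `E` of the field generated by `t` over the constants of `D`. -/
noncomputable def lineBase {K E : Type} [Field K] [Field E] [Algebra K E] (D : Derivation K E E)
    (t : E) : IntermediateField K E :=
  (algebraicClosure (IntermediateField.adjoin K ({x | D x = 0} ∪ {t})) E).restrictScalars K

theorem mem_lineBase {K E : Type} [Field K] [Field E] [Algebra K E] {D : Derivation K E E}
    {t x : E} : x ∈ lineBase D t ↔
      IsAlgebraic (IntermediateField.adjoin K ({x | D x = 0} ∪ {t})) x := by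
  change x ∈ algebraicClosure (IntermediateField.adjoin K ({x | D x = 0} ∪ {t})) E ↔ _
  exact mem_algebraicClosure_iff

theorem alg_lineBase {K E : Type} [Field K] [Field E] [Algebra K E] {D : Derivation K E E}
    {t y : E} (h : IsAlgebraic (lineBase D t) y) :
    IsAlgebraic (IntermediateField.adjoin K ({x | D x = 0} ∪ {t})) y := by
  have h1 : IsAlgebraic (algebraicClosure (IntermediateField.adjoin K ({x | D x = 0} ∪ {t})) E)
      y := h
  exact h1.restrictScalars _

theorem line_field {K E : Type} [Field K] [CharZero K] [Field E] [Algebra K E]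
    {D : Derivation K E E} {t : E} (ht : D t = 1) :
    DField (fun _ : Fin 1 => D) (lineBase D t) := by
  have hcE : CharZero E := charZero_of_injective_algebraMap (algebraMap K E).injective
  have hst : ∀ x ∈ (IntermediateField.adjoin K ({x | D x = 0} ∪ {t})).toSubfield,
      D x ∈ (IntermediateField.adjoin K ({x | D x = 0} ∪ {t})).toSubfield := by
    intro x hx
    have h1 : (IntermediateField.adjoin K ({x | D x = 0} ∪ {t})).toSubfield =
        Subfield.closure (Set.range (algebraMap K E) ∪ ({x | D x = 0} ∪ {t})) := rfl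
    rw [h1] at hx ⊢
    refine SA.closure_stable D _ ?_ x hx
    rintro y (⟨c, rfl⟩ | hy | hy)
    · rw [D.map_algebraMap]
      exact zero_mem _
    · have h2 : D y = 0 := hy
      rw [h2]
      exact zero_mem _
    · have h2 : y = t := hy
      rw [h2, ht]
      exact one_mem _
  constructor
  · intro _ x hx
    have h1 : x ∈ SA.clo (IntermediateField.adjoin K ({x | D x = 0} ∪ {t})).toSubfield := by
      rw [SA.mem_clo]
      exact mem_lineBase.1 hx
    have h2 := SA.clo_stable D _ hst x h1
    rw [SA.mem_clo] at h2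
    exact mem_lineBase.2 h2
  · intro x hx
    rw [mem_lineBase]
    exact isAlgebraic_algebraMap (⟨x, IntermediateField.subset_adjoin K _ (Or.inl (hx 0))⟩ :
      IntermediateField.adjoin K ({x | D x = 0} ∪ {t}))

end Pool.Agent.H436.DT
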