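import Pool.Graph.R_pool_sql_team_seeded_2aa45f1a.Q1.SL.Key
import Pool.Graph.R_pool_sql_team_seeded_2aa45f1a.Q309.OFF.DImg

/-!
Rational curves through points over differential fields; forms over subfields.
-/

set_option autoImplicit false

namespace Pool.Agent.H436.DT

open MvPolynomial Pool.Agent.Y377.IL Pool.Agent.Y377.ST Pool.Agent.Q1.SL
open Pool.Agent.Q171.RC (OnRat NC HasPt ev)

/-- a rational curve through the point -/
theorem rat_point {L : Type} [Field L] [Algebra ℂ L] {D : Derivation ℂ L L} (hC : Cst D)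
    {R0 R : Subalgebra ℂ L} (h0 : GoodB D R0) (hR : LTow D R0 R) {n : ℕ}
    {x : Fin (n + 1) → L} (hmem : ∀ j, x j ∈ R) {u v : Fin (n + 1)} (hv : x v ≠ 0)
    (huv : ¬ IsAlgebraic R0 (x u / x v)) :
    ∃ (M : Type) (_ : Field M) (_ : Algebra ℂ M) (p : Fin (n + 1) → RatFunc M),
      (∀ (G : MvPolynomial (Fin (n + 1)) ℂ) (d : ℕ), G.IsHomogeneous d →
        (aeval p G = 0 ↔ aeval x G = 0)) ∧
      ∃ i l, p l ≠ 0 ∧ ∀ c : M, p i / p l ≠ algebraMap M (RatFunc M) c := by
  classical
  let t : Finset L := Finset.univ.image fun j => x j / x v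
  have hF : RatFam R t := by
    refine hyp.main hC h0 hR (fun a ha => ?_) ?_
    · obtain ⟨j, -, rfl⟩ := Finset.mem_image.1 ha
      exact fracs_mem (hmem j) (hmem v)
    · exact ⟨x u / x v, Finset.mem_image.2 ⟨u, Finset.mem_univ u, rfl⟩, huv⟩
  obtain ⟨S0, M, i1, i2, φ, -, h2, -, ⟨z, hz, hzc⟩, -⟩ := hF
  have hm : ∀ j, x j / x v ∈ frac S0 := fun j =>
    h2 _ (Finset.mem_image_of_mem _ (Finset.mem_univ j))
  let w : Fin (n + 1) → frac S0 := fun j => ⟨x j / x v, hm j⟩
  have h1w : w v = 1 := Subtype.ext (div_self hv)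
  refine ⟨M, i1, i2, fun j => φ (w j), fun G d hG => ?_, ?_⟩
  · have h3 : aeval (fun j => φ (w j)) G = φ (aeval w G) :=
      (MvPolynomial.comp_aeval_apply (f := w) φ G).symm
    have h4 : ((aeval w G : frac S0) : L) = aeval (fun j => x j / x v) G :=
      MvPolynomial.comp_aeval_apply (f := w) (frac S0).val G
    rw [h3, map_eq_zero_iff φ φ.toRingHom.injective, ← Subtype.coe_inj, h4]
    change aeval (fun j => x j / x v) G = 0 ↔ _
    exact form_div hG x hv
  · obtain ⟨i, -, hi⟩ := Finset.mem_image.1 hz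
    refine ⟨i, v, ?_, fun c hc => hzc c ?_⟩
    · change φ (w v) ≠ 0
      rw [h1w, map_one]
      exact one_ne_zero
    · have h4 : w i = z := Subtype.ext hi
      change φ (w i) / φ (w v) = _ at hc
      rw [h1w, map_one, div_one, h4] at hc
      exact hc

/-- polynomial coordinates -/
theorem poly_point {M : Type} [Field M] [Algebra ℂ M] {n : ℕ} {p : Fin (n + 1) → RatFunc M}
    (hnc : ∃ i l, p l ≠ 0 ∧ ∀ c : M, p i / p l ≠ algebraMap M (RatFunc M) c) :
    ∃ a : Fin (n + 1) → Polynomial M, NC a ∧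
      ∀ (G : MvPolynomial (Fin (n + 1)) ℂ) (d : ℕ), G.IsHomogeneous d →
        (aeval a G = 0 ↔ aeval p G = 0) := by
  classical
  obtain ⟨d, a, hd0, ha⟩ := clear_den p
  have hcz : CharZero M := charZero_of_injective_algebraMap (algebraMap ℂ M).injective
  have hd0' : algebraMap (Polynomial M) (RatFunc M) d ≠ 0 := by
    rw [Ne, FaithfulSMul.algebraMap_eq_zero_iff]
    exact hd0
  have hform : ∀ (F : MvPolynomial (Fin (n + 1)) ℂ) (e : ℕ), F.IsHomogeneous e →
      (aeval a F = 0 ↔ aeval p F = 0) := by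
    intro F e hF
    have h1 : (fun j => algebraMap (Polynomial M) (RatFunc M) (a j)) =
        fun j => algebraMap (Polynomial M) (RatFunc M) d * p j := funext ha
    have h2 : algebraMap (Polynomial M) (RatFunc M) (aeval a F) =
        (algebraMap (Polynomial M) (RatFunc M) d) ^ e * aeval p F := by
      rw [← MvPolynomial.aeval_algebraMap_apply, ← Pool.Agent.Y837.ST.aeval_scale _ _ hF]
      congr 2
    rw [← FaithfulSMul.algebraMap_eq_zero_iff (Polynomial M) (RatFunc M), h2, mul_eq_zero]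
    constructor
    · rintro (h3 | h3)
      · exact absurd h3 (pow_ne_zero _ hd0')
      · exact h3
    · exact Or.inr
  refine ⟨a, ?_, hform⟩
  obtain ⟨i, l, hl, hc⟩ := hnc
  have hal : a l ≠ 0 := by
    intro h
    have h1 := ha l
    rw [h, map_zero] at h1
    exact mul_ne_zero hd0' hl h1.symm
  obtain ⟨t0, ht0⟩ : ∃ t : M, (a l).eval t ≠ 0 := by
    by_contra hcon
    push Not at hcon
    exact hal (Polynomial.funext fun r => by rw [hcon r, Polynomial.eval_zero])
  by_contra hno
  have h1 : a i * Polynomial.C ((a l).eval t0) = a l * Polynomial.C ((a i).eval t0) := by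
    apply Polynomial.funext
    intro t
    rw [Polynomial.eval_mul, Polynomial.eval_mul, Polynomial.eval_C, Polynomial.eval_C]
    by_contra h2
    exact hno ⟨t, t0, i, l, h2⟩
  apply hc ((a i).eval t0 / (a l).eval t0)
  have h2 := congrArg (algebraMap (Polynomial M) (RatFunc M)) h1
  rw [map_mul, map_mul, ha, ha, RatFunc.algebraMap_C, RatFunc.algebraMap_C] at h2
  have h3 : (algebraMap M (RatFunc M)) ((a l).eval t0) ≠ 0 := by
    rw [Ne, map_eq_zero]
    exact ht0
  have h4 : ∀ c : M, RatFunc.C c = algebraMap M (RatFunc M) c := fun c => rfl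
  rw [h4, h4] at h2
  rw [map_div₀, div_eq_div_iff hl h3]
  apply mul_left_cancel₀ hd0'
  linear_combination h2

/-- **The points on rational curves of bounded degree form a closed set**, over subfields. -/
theorem onRat_locus2 {n : ℕ} {k L : Type} [Field k] [Field L] [IsAlgClosed L] [Algebra k L]
    {S : Set (MvPolynomial (Fin (n + 1)) k)}
    (hS : ∀ F ∈ S, ∃ e, F.IsHomogeneous e) (N : ℕ) :
    ∃ Gs : Finset (MvPolynomial (Fin (n + 1)) k), (∀ G ∈ Gs, ∃ d, G.IsHomogeneous d) ∧
      ∀ x : Fin (n + 1) → L, x ≠ 0 → ((∀ G ∈ Gs, aeval x G = 0) ↔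
        OnRat (map (algebraMap k L) '' S) N x) := by
  classical
  obtain ⟨Gs, hGs1, hGs2⟩ := Pool.Agent.Q171.RC.locus (k := k) (σ := Fin 0) (N := n + 1) L
    ((map (C : k →+* MvPolynomial (Fin 0) k)) '' S) (by
      rintro _ ⟨F, hF, rfl⟩
      obtain ⟨e, he⟩ := hS F hF
      exact ⟨e, he.map _⟩) N
  let t0 : Fin 0 → L := Fin.elim0
  have hev : (ev t0 : MvPolynomial (Fin 0) k →+* L).comp C = algebraMap k L := by
    ext a
    change aeval t0 (C a) = _
    rw [aeval_C]
  have hmap : ∀ F : MvPolynomial (Fin (n + 1)) k,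
      map (ev t0 : MvPolynomial (Fin 0) k →+* L) (map C F) = map (algebraMap k L) F := by
    intro F
    rw [MvPolynomial.map_map, hev]
  have h1 : (algebraMap k L).comp (constantCoeff : MvPolynomial (Fin 0) k →+* k) =
      (ev t0 : MvPolynomial (Fin 0) k →+* L) := by
    refine MvPolynomial.ringHom_ext (fun a => ?_) fun i => i.elim0
    change algebraMap k L (constantCoeff (C a)) = aeval t0 (C a)
    rw [constantCoeff_C, aeval_C]
  have hpt : ∀ x : Fin (n + 1) → L, OnRat (map (algebraMap k L) '' S) N x ↔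
      HasPt (ev t0 : MvPolynomial (Fin 0) k →+* L)
        ((map (C : k →+* MvPolynomial (Fin 0) k)) '' S) N x := by
    intro x
    constructor
    · rintro ⟨p, h1, h2, h3, h4⟩
      refine ⟨p, h1, h2, ?_, h4⟩
      rintro _ ⟨F, hF, rfl⟩
      rw [hmap]
      exact h3 _ ⟨F, hF, rfl⟩
    · rintro ⟨p, h1, h2, h3, h4⟩
      refine ⟨p, h1, h2, ?_, h4⟩
      rintro _ ⟨F, hF, rfl⟩
      have h5 := h3 _ ⟨F, hF, rfl⟩
      rwa [hmap] at h5
  have hG : ∀ (x : Fin (n + 1) → L) (G' : MvPolynomial (Fin (n + 1)) (MvPolynomial (Fin 0) k)),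
      aeval x (map (constantCoeff : MvPolynomial (Fin 0) k →+* k) G') =
        eval x (map (ev t0 : MvPolynomial (Fin 0) k →+* L) G') := by
    intro x G'
    rw [← h1, ← MvPolynomial.map_map, eval_map]
    rfl
  refine ⟨Gs.image (map constantCoeff), fun G hG => ?_, fun x hx => ?_⟩
  · obtain ⟨G', hG', rfl⟩ := Finset.mem_image.1 hG
    obtain ⟨d, hd⟩ := hGs1 G' hG'
    exact ⟨d, hd.map _⟩
  · rw [hpt, ← hGs2 t0 x hx]
    constructor
    · intro h G hG'
      rw [← hG]
      exact h _ (Finset.mem_image_of_mem _ hG')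
    · intro h G hG'
      obtain ⟨G', hG'', rfl⟩ := Finset.mem_image.1 hG'
      rw [hG]
      exact h G' hG''

end Pool.Agent.H436.DT
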